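import Pool.Agent.P8H67.TU.Stm

/-!
Project TU, third statement file: normal abelian subgroups with positive real eigenvalues (instead of
unipotent ones). Only the flow changes.
-/

set_option autoImplicit false

namespace Pool.Agent.P8H67.TU

/-- all complex eigenvalues of `A` are positive real numbers: the space is the sum of the generalized
eigenspaces of `A` for positive real numbers -/
def PosSpec {W : Type} [NormedAddCommGroup W] [NormedSpace ℝ W] (A : W →ₗ[ℝ] W) : Prop :=
  ⨆ μ : {μ : ℝ // 0 < μ}, Module.End.maxGenEigenspace A μ = ⊤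

/-- all complex eigenvalues of `A` are real -/
def RealSpec {W : Type} [NormedAddCommGroup W] [NormedSpace ℝ W] (A : W →ₗ[ℝ] W) : Prop :=
  ⨆ μ : ℝ, Module.End.maxGenEigenspace A μ = ⊤

/-- LOGR (150 lines). The logarithm: on the generalized eigenspace of `μ` the map `A` is
`μ (1 + x)`, `x` nilpotent; put `l = log μ + log(1 + x)` there (LOG). The space is the direct sum of these
spaces (`Module.End.independent_maxGenEigenspace`). Maps which commute with `A` preserve the generalized
eigenspaces and commute with `x` there; invariant subspaces are sums of their intersections with the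
generalized eigenspaces (`Module.End.inf_iSup_genEigenspace`), and `log(1 + x)` is a polynomial in `x`. (Or
write `A = exp l` with `l` a polynomial in `A`.) -/
def S_LOGR : Prop := S_LOG → ∀ (W : Type) [NormedAddCommGroup W] [NormedSpace ℝ W]
    [FiniteDimensional ℝ W] (A : W →L[ℝ] W), PosSpec (A : W →ₗ[ℝ] W) →
  ∃ l : W →L[ℝ] W, RealSpec (l : W →ₗ[ℝ] W) ∧ NormedSpace.exp l = A ∧
    (∀ B : W →L[ℝ] W, B * A = A * B → B * l = l * B) ∧
    ∀ S : Submodule ℝ W, (∀ q ∈ S, A q ∈ S) → ∀ q ∈ S, l q ∈ S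

/-- RSP (100 lines). (1) common generalized eigenspaces
(`Module.End.iSup_iInf_maxGenEigenspace_eq_top_of_forall_mapsTo` for the family `a, b`): on the space of
`(μ, ν)` the map `a + b - (μ + ν)` is nilpotent. (2) clear. (3) `K = {q | exp a q = q}` is invariant under `a`,
so it is the sum of its intersections with the generalized eigenspaces of `a`; on `K ∩ G_μ`
`a = μ + x`, `exp a = e^μ exp x = 1`, so if `K ∩ G_μ ≠ 0` then (eigenvector of `a`) `e^μ = 1`, `μ = 0`, and
`exp x = 1` for the nilpotent `x` gives `x = 0` on it. -/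
def S_RSP : Prop := ∀ (W : Type) [NormedAddCommGroup W] [NormedSpace ℝ W]
    [FiniteDimensional ℝ W],
  (∀ a b : W →L[ℝ] W, a * b = b * a → RealSpec (a : W →ₗ[ℝ] W) → RealSpec (b : W →ₗ[ℝ] W) →
    RealSpec ((a + b : W →L[ℝ] W) : W →ₗ[ℝ] W)) ∧
  (∀ (t : ℝ) (a : W →L[ℝ] W), RealSpec (a : W →ₗ[ℝ] W) →
    RealSpec ((t • a : W →L[ℝ] W) : W →ₗ[ℝ] W)) ∧
  ∀ (a : W →L[ℝ] W) (q : W), RealSpec (a : W →ₗ[ℝ] W) → (NormedSpace.exp a : W →L[ℝ] W) q = q →
    a q = 0

/-- FLOWR (150 lines). As FLOW (`Pool.Agent.P8H5.TU.Flow`), with LOGR instead of LOG. The linear map `ν'` of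
`E × ℝ` has positive spectrum too. `L` = the set of the `l` with real spectrum, `exp l = ν'` for some
`ν ∈ N`, which commute with all maps which commute with `ν'`: they commute with each other; uniqueness
of `l` for `ν`: RSP for `l - l'`. The span `A` of `L` consists of commuting maps with real
spectrum (RSP). Image in `E × 0`: `E × 0` is `ν'`-invariant, hence `l`-invariant (last clause of
LOGR), and `l` acts on the quotient by `c` with `e^c = 1`. `smooth`: `exp` is analytic
(`NormedSpace.exp_analytic`); `line`: RSP (3), then `exp(t a) q = q`; `imm`: the derivative of `exp` at `0` is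
the identity. -/
def S_FLOWR : Prop := S_LOG → S_LOGR → S_RSP → ∀ (E Γ : Type) [NormedAddCommGroup E]
    [NormedSpace ℝ E] [FiniteDimensional ℝ E] [Group Γ] (hol : Γ →* (E ≃ᵃ[ℝ] E))
    (N : Subgroup Γ) [N.Normal],
  (∀ a ∈ N, ∀ b ∈ N, a * b = b * a) →
  (∀ ν ∈ N, PosSpec ((hol ν).linear : E →ₗ[ℝ] E)) →
  ∃ (d : ℕ) (Φ : (Fin d → ℝ) → E → E) (θ : Γ →* ((Fin d → ℝ) ≃ₗ[ℝ] (Fin d → ℝ))),
    Flow E Γ hol N d Φ θ

end Pool.Agent.P8H67.TU
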