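import Pool.Agent.P8H67.TU.Stm4

/-!
Project TU: bounded cocycles of degree one are coboundaries.
-/

set_option autoImplicit false

open Set

namespace Pool.Agent.P8H67.TU.BZ

open Pool.Agent.N520.SV (Sx Chain face bdry norm1 BCob)

variable {M : Type} [TopologicalSpace M]

/-- the simplex `u ↦ h (a u_0 + b u_1)` -/
noncomputable def L (h : C(ℝ, M)) (a b : ℝ) : C(Sx 1, M) where
  toFun u := h (a * u.1 0 + b * u.1 1)
  continuous_toFun := by
    refine h.continuous.comp ?_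
    have h0 : Continuous fun u : Sx 1 => u.1 0 := (continuous_apply 0).comp continuous_subtype_val
    have h1 : Continuous fun u : Sx 1 => u.1 1 := (continuous_apply 1).comp continuous_subtype_val
    exact (continuous_const.mul h0).add (continuous_const.mul h1)

/-- the simplex `t ↦ h (a t_0 + b t_1 + c t_2)` -/
noncomputable def L2 (h : C(ℝ, M)) (a b c : ℝ) : C(Sx 2, M) where
  toFun u := h (a * u.1 0 + b * u.1 1 + c * u.1 2)
  continuous_toFun := by
    refine h.continuous.comp ?_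
    have h0 : Continuous fun u : Sx 2 => u.1 0 := (continuous_apply 0).comp continuous_subtype_val
    have h1 : Continuous fun u : Sx 2 => u.1 1 := (continuous_apply 1).comp continuous_subtype_val
    have h2 : Continuous fun u : Sx 2 => u.1 2 := (continuous_apply 2).comp continuous_subtype_val
    exact ((continuous_const.mul h0).add (continuous_const.mul h1)).add (continuous_const.mul h2)

theorem face_apply {k : ℕ} (i : Fin (k + 2)) (u : Sx k) (j : Fin (k + 2)) :
    (face i u).1 j = ∑ l : Fin (k + 1), if i.succAbove l = j then u.1 l else 0 := by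
  show (stdSimplex.map i.succAbove u).1 j = _
  rw [show (stdSimplex.map i.succAbove u).1 = FunOnFinite.linearMap ℝ ℝ i.succAbove u.1 from rfl]
  rw [FunOnFinite.linearMap_apply_apply]
  rw [Finset.sum_filter]

theorem sum_one (u : Sx 1) : u.1 0 + u.1 1 = 1 := by
  have := u.2.2
  rwa [Fin.sum_univ_two] at this

theorem face_apply' (i : Fin 3) (u : Sx 1) (j : Fin 3) :
    (face (k := 1) i u).1 j = (if i.succAbove (0 : Fin 2) = j then u.1 0 else 0)
      + (if i.succAbove (1 : Fin 2) = j then u.1 1 else 0) := by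
  rw [face_apply]
  exact Fin.sum_univ_two _

theorem vals0 (u : Sx 1) : (face (k := 1) (0 : Fin 3) u).1 0 = 0 ∧
    (face (k := 1) (0 : Fin 3) u).1 1 = u.1 0 ∧ (face (k := 1) (0 : Fin 3) u).1 2 = u.1 1 := by
  refine ⟨?_, ?_, ?_⟩
  · rw [face_apply', if_neg (by decide), if_neg (by decide), add_zero]
  · rw [face_apply', if_pos (by decide), if_neg (by decide), add_zero]
  · rw [face_apply', if_neg (by decide), if_pos (by decide), zero_add]

theorem vals1 (u : Sx 1) : (face (k := 1) (1 : Fin 3) u).1 0 = u.1 0 ∧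
    (face (k := 1) (1 : Fin 3) u).1 1 = 0 ∧ (face (k := 1) (1 : Fin 3) u).1 2 = u.1 1 := by
  refine ⟨?_, ?_, ?_⟩
  · rw [face_apply', if_pos (by decide), if_neg (by decide), add_zero]
  · rw [face_apply', if_neg (by decide), if_neg (by decide), add_zero]
  · rw [face_apply', if_neg (by decide), if_pos (by decide), zero_add]

theorem vals2 (u : Sx 1) : (face (k := 1) (2 : Fin 3) u).1 0 = u.1 0 ∧
    (face (k := 1) (2 : Fin 3) u).1 1 = u.1 1 ∧ (face (k := 1) (2 : Fin 3) u).1 2 = 0 := by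
  refine ⟨?_, ?_, ?_⟩
  · rw [face_apply', if_pos (by decide), if_neg (by decide), add_zero]
  · rw [face_apply', if_neg (by decide), if_pos (by decide), zero_add]
  · rw [face_apply', if_neg (by decide), if_neg (by decide), add_zero]

theorem face0 (h : C(ℝ, M)) (a b c : ℝ) : (L2 h a b c).comp (face 0) = L h b c := by
  ext u
  obtain ⟨e0, e1, e2⟩ := vals0 u
  show h (a * (face (k := 1) (0 : Fin 3) u).1 0 + b * (face (k := 1) (0 : Fin 3) u).1 1 + c * (face (k := 1) (0 : Fin 3) u).1 2) = h (b * u.1 0 + c * u.1 1)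
  rw [e0, e1, e2]
  congr 1
  ring

theorem face1 (h : C(ℝ, M)) (a b c : ℝ) : (L2 h a b c).comp (face 1) = L h a c := by
  ext u
  obtain ⟨e0, e1, e2⟩ := vals1 u
  show h (a * (face (k := 1) (1 : Fin 3) u).1 0 + b * (face (k := 1) (1 : Fin 3) u).1 1 + c * (face (k := 1) (1 : Fin 3) u).1 2) = h (a * u.1 0 + c * u.1 1)
  rw [e0, e1, e2]
  congr 1
  ring

theorem face2 (h : C(ℝ, M)) (a b c : ℝ) : (L2 h a b c).comp (face 2) = L h a b := by
  ext u
  obtain ⟨e0, e1, e2⟩ := vals2 u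
  show h (a * (face (k := 1) (2 : Fin 3) u).1 0 + b * (face (k := 1) (2 : Fin 3) u).1 1 + c * (face (k := 1) (2 : Fin 3) u).1 2) = h (a * u.1 0 + b * u.1 1)
  rw [e0, e1, e2]
  congr 1
  ring

/-- the clamped path in the simplex -/
noncomputable def path : C(ℝ, Sx 1) where
  toFun s := ⟨![1 - max 0 (min 1 s), max 0 (min 1 s)], by
    constructor
    · intro i
      fin_cases i
      · simp
      · simp
    · simp [Fin.sum_univ_two]⟩
  continuous_toFun := by
    refine Continuous.subtype_mk ?_ _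
    refine continuous_pi fun i => ?_
    fin_cases i
    · simp only [Fin.zero_eta, Matrix.cons_val_zero]; fun_prop
    · simp only [Fin.mk_one, Matrix.cons_val_one]; fun_prop

theorem path_val (u : Sx 1) : path (0 * u.1 0 + 1 * u.1 1) = u := by
  apply Subtype.ext
  have h0 := u.2.1 0
  have h1 := u.2.1 1
  have hs := sum_one u
  have e : max 0 (min 1 (0 * u.1 0 + 1 * u.1 1)) = u.1 1 := by
    rw [zero_mul, one_mul, zero_add, min_eq_right (by linarith), max_eq_right h1]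
  funext i
  fin_cases i
  · show 1 - max 0 (min 1 (0 * u.1 0 + 1 * u.1 1)) = u.1 0
    rw [e]; linarith
  · show max 0 (min 1 (0 * u.1 0 + 1 * u.1 1)) = u.1 1
    exact e

theorem L_path (σ : C(Sx 1, M)) : L (σ.comp path) 0 1 = σ := by
  ext u
  show σ (path (0 * u.1 0 + 1 * u.1 1)) = σ u
  rw [path_val]

/-- concatenation -/
noncomputable def cat (f g : C(ℝ, M)) (h : f 1 = g 0) : C(ℝ, M) where
  toFun s := if s ≤ 1 then f s else g (s - 1)
  continuous_toFun := by
    refine Continuous.if_le f.continuous (g.continuous.comp (by fun_prop)) continuous_id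
      continuous_const ?_
    intro x hx
    have hx' : x = 1 := hx
    subst hx'
    simpa using h

theorem cat_left (f g : C(ℝ, M)) (h : f 1 = g 0) : L (cat f g h) 0 1 = L f 0 1 := by
  ext u
  have h0 := u.2.1 0
  have h1 := u.2.1 1
  have hs := sum_one u
  show (if (0 * u.1 0 + 1 * u.1 1) ≤ 1 then f (0 * u.1 0 + 1 * u.1 1) else _) = f _
  rw [if_pos (by linarith)]

theorem cat_right (f g : C(ℝ, M)) (h : f 1 = g 0) : L (cat f g h) 1 2 = L g 0 1 := by
  ext u
  have h0 := u.2.1 0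
  have h1 := u.2.1 1
  have hs := sum_one u
  show (if (1 * u.1 0 + 2 * u.1 1) ≤ 1 then f (1 * u.1 0 + 2 * u.1 1)
    else g ((1 * u.1 0 + 2 * u.1 1) - 1)) = g (0 * u.1 0 + 1 * u.1 1)
  split_ifs with hc
  · have e1 : u.1 1 = 0 := by linarith
    have e0 : u.1 0 = 1 := by linarith
    rw [e1, e0]
    simpa using h
  · congr 1
    linarith

/-- change of parameter -/
noncomputable def aff (f : C(ℝ, M)) (a b : ℝ) : C(ℝ, M) := f.comp ⟨fun s => a + b * s, by fun_prop⟩

theorem aff_L (f : C(ℝ, M)) (a b c d : ℝ) : L (aff f a b) c d = L f (a + b * c) (a + b * d) := by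
  ext u
  have hs := sum_one u
  show f (a + b * (c * u.1 0 + d * u.1 1)) = f ((a + b * c) * u.1 0 + (a + b * d) * u.1 1)
  congr 1
  linear_combination (-a) * hs

section
variable (φ : C(Sx 1, M) → ℝ)
  (hφ : ∀ τ : C(Sx 2, M), ∑ i : Fin 3, (-1 : ℝ) ^ (i : ℕ) * φ (τ.comp (face i)) = 0)
include hφ

theorem add_int (h : C(ℝ, M)) (a b c : ℝ) : φ (L h a c) = φ (L h a b) + φ (L h b c) := by
  have := hφ (L2 h a b c)
  rw [Fin.sum_univ_three, face0, face1, face2] at this
  simp at this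
  linarith

theorem self_int (h : C(ℝ, M)) (a : ℝ) : φ (L h a a) = 0 := by
  have := add_int φ hφ h a a a
  linarith

theorem rev_int (h : C(ℝ, M)) (a b : ℝ) : φ (L h b a) = - φ (L h a b) := by
  have h1 := add_int φ hφ h a b a
  rw [self_int φ hφ] at h1
  linarith

theorem loop (hb : ∃ C : ℝ, ∀ σ, |φ σ| ≤ C) (f : C(ℝ, M)) (h : f 0 = f 1) :
    φ (L f 0 1) = 0 := by
  obtain ⟨C, hC⟩ := hb
  have hc : Continuous (f ∘ Int.fract) := ContinuousOn.comp_fract'' f.continuous.continuousOn h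
  obtain ⟨g, hg⟩ : ∃ g : C(ℝ, M), g = ⟨f ∘ Int.fract, hc⟩ := ⟨_, rfl⟩
  have hgf : L g 0 1 = L f 0 1 := by
    ext u
    have h0 := u.2.1 0
    have h1 := u.2.1 1
    have hs := sum_one u
    rw [hg]
    show f (Int.fract (0 * u.1 0 + 1 * u.1 1)) = f (0 * u.1 0 + 1 * u.1 1)
    rw [zero_mul, one_mul, zero_add]
    rcases lt_or_eq_of_le (show u.1 1 ≤ 1 by linarith) with hlt | heq
    · rw [Int.fract_eq_self.2 ⟨h1, hlt⟩]
    · rw [heq, Int.fract_one]
      exact h
  have hstep : ∀ n : ℕ, φ (L g n (n + 1)) = φ (L f 0 1) := by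
    intro n
    rw [← hgf]
    congr 1
    ext u
    have hs := sum_one u
    rw [hg]
    show f (Int.fract (n * u.1 0 + (n + 1) * u.1 1)) = f (Int.fract (0 * u.1 0 + 1 * u.1 1))
    rw [show (n : ℝ) * u.1 0 + (n + 1) * u.1 1 = (0 * u.1 0 + 1 * u.1 1) + (n : ℕ) by
      linear_combination (n : ℝ) * hs]
    rw [Int.fract_add_natCast]
  have hsum : ∀ n : ℕ, φ (L g 0 n) = n * φ (L f 0 1) := by
    intro n
    induction n with
    | zero => simpa using self_int φ hφ g 0
    | succ n ih =>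
      push_cast
      rw [add_int φ hφ g 0 n (n + 1), ih, hstep]
      ring
  by_contra hne
  have hpos : 0 < |φ (L f 0 1)| := abs_pos.2 hne
  obtain ⟨n, hn⟩ := exists_nat_gt (C / |φ (L f 0 1)|)
  have h1 := hC (L g 0 n)
  rw [hsum, abs_mul, Nat.abs_cast] at h1
  rw [div_lt_iff₀ hpos] at hn
  linarith

end

/-- points joined by a path -/
def R (x y : M) : Prop := ∃ f : C(ℝ, M), f 0 = x ∧ f 1 = y

theorem cat_ex (f g : C(ℝ, M)) (h : f 1 = g 0) :
    ∃ k : C(ℝ, M), k 0 = f 0 ∧ k 1 = g 1 ∧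
      ∀ φ : C(Sx 1, M) → ℝ,
        (∀ τ : C(Sx 2, M), ∑ i : Fin 3, (-1 : ℝ) ^ (i : ℕ) * φ (τ.comp (face i)) = 0) →
        φ (L k 0 1) = φ (L f 0 1) + φ (L g 0 1) := by
  refine ⟨aff (cat f g h) 0 2, ?_, ?_, fun φ hφ => ?_⟩
  · show (if (0 : ℝ) + 2 * 0 ≤ 1 then f (0 + 2 * 0) else _) = f 0
    rw [if_pos (by norm_num)]
    norm_num
  · show (if (0 : ℝ) + 2 * 1 ≤ 1 then _ else g (0 + 2 * 1 - 1)) = g 1
    rw [if_neg (by norm_num)]
    norm_num
  · rw [aff_L]
    norm_num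
    rw [add_int φ hφ (cat f g h) 0 1 2, cat_left, cat_right]

theorem rev_ex (f : C(ℝ, M)) :
    ∃ k : C(ℝ, M), k 0 = f 1 ∧ k 1 = f 0 ∧
      ∀ φ : C(Sx 1, M) → ℝ,
        (∀ τ : C(Sx 2, M), ∑ i : Fin 3, (-1 : ℝ) ^ (i : ℕ) * φ (τ.comp (face i)) = 0) →
        φ (L k 0 1) = - φ (L f 0 1) := by
  refine ⟨aff f 1 (-1), ?_, ?_, fun φ hφ => ?_⟩
  · show f (1 + (-1) * 0) = f 1
    norm_num
  · show f (1 + (-1) * 1) = f 0
    norm_num
  · rw [aff_L]
    norm_num
    rw [rev_int φ hφ]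

/-- the equivalence relation -/
def setR (M : Type) [TopologicalSpace M] : Setoid M where
  r := R
  iseqv := by
    refine ⟨fun x => ⟨ContinuousMap.const ℝ x, rfl, rfl⟩, ?_, ?_⟩
    · rintro x y ⟨f, h0, h1⟩
      obtain ⟨k, hk0, hk1, -⟩ := rev_ex f
      exact ⟨k, hk0.trans h1, hk1.trans h0⟩
    · rintro x y z ⟨f, h0, h1⟩ ⟨g, h2, h3⟩
      obtain ⟨k, hk0, hk1, -⟩ := cat_ex f g (h1.trans h2.symm)
      exact ⟨k, hk0.trans h0, hk1.trans h3⟩

theorem bz : Pool.Agent.P8H67.TU.S_BZ := by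
  intro M _ φ hb hφ
  have hbase : ∀ y : M, ∃ f : C(ℝ, M), f 0 = (Quotient.mk (setR M) y).out ∧ f 1 = y := by
    intro y
    exact Quotient.exact (s := setR M) (Quotient.out_eq (Quotient.mk (setR M) y))
  choose p hp0 hp1 using hbase
  obtain ⟨pt⟩ : Nonempty (Sx 0) := ⟨⟨fun _ => 1, fun _ => zero_le_one, by simp⟩⟩
  have hpt : ∀ u v : Sx 0, u = v := by
    intro u v
    apply Subtype.ext
    funext i
    have hu := u.2.2
    have hv := v.2.2
    rw [Fin.sum_univ_one] at hu hv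
    have hi : i = 0 := Fin.ext (by have := i.2; simp)
    rw [hi, hu, hv]
  refine ⟨fun c => φ (L (p (c pt)) 0 1), fun σ => ?_⟩
  rw [Fin.sum_univ_two]
  show φ σ = (-1 : ℝ) ^ 0 * φ (L (p (σ (face 0 pt))) 0 1)
    + (-1 : ℝ) ^ 1 * φ (L (p (σ (face 1 pt))) 0 1)
  obtain ⟨f, hf⟩ : ∃ f : C(ℝ, M), f = σ.comp path := ⟨_, rfl⟩
  have hσ : L f 0 1 = σ := by rw [hf, L_path]
  have hf0 : f 0 = σ (face 1 pt) := by
    rw [hf]
    show σ (path 0) = σ (face 1 pt)
    congr 1
    apply Subtype.ext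
    have hs := pt.2.2
    rw [Fin.sum_univ_one] at hs
    funext i
    rw [face_apply]
    show (![1 - max 0 (min 1 (0 : ℝ)), max 0 (min 1 (0 : ℝ))] : Fin 2 → ℝ) i = _
    fin_cases i
    · simp [Fin.succAbove, hs]
    · simp [Fin.succAbove]
  have hf1 : f 1 = σ (face 0 pt) := by
    rw [hf]
    show σ (path 1) = σ (face 0 pt)
    congr 1
    apply Subtype.ext
    have hs := pt.2.2
    rw [Fin.sum_univ_one] at hs
    funext i
    rw [face_apply]
    show (![1 - max 0 (min 1 (1 : ℝ)), max 0 (min 1 (1 : ℝ))] : Fin 2 → ℝ) i = _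
    fin_cases i
    · simp [Fin.succAbove]
    · simp [Fin.succAbove, hs]
  have hbe : (Quotient.mk (setR M) (f 0)).out = (Quotient.mk (setR M) (f 1)).out := by
    congr 1
    exact Quotient.sound (s := setR M) ⟨f, rfl, rfl⟩
  rw [← hf0, ← hf1]
  obtain ⟨k, hk0, hk1, hk⟩ := cat_ex (p (f 0)) f (hp1 _)
  obtain ⟨q, hq0, hq1, hq⟩ := rev_ex (p (f 1))
  obtain ⟨w, hw0, hw1, hw⟩ := cat_ex k q (by rw [hk1, hq0, hp1])
  have h1 := loop φ hφ hb w (by rw [hw0, hw1, hk0, hq1, hp0, hp0, hbe])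
  rw [hw φ hφ, hk φ hφ, hq φ hφ, hσ] at h1
  linarith

end Pool.Agent.P8H67.TU.BZ
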