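import Pool.Agent.P8H67.TU.Stm
import Pool.Agent.N278.SV.Lift

/-!
Project TU: bounded cocycles of large degree are coboundaries.
-/

set_option autoImplicit false

open Set Filter Topology

namespace Pool.Agent.P8H67.TU

open Pool.Agent.N520.SV (Sx Chain face bdry norm1 BCob)
open Pool.Agent.P8H67.TD (RA CC KK GAc gs orb GInv vtx Bd PMean)

/-- the conclusion of GIND -/
def GI : Prop := ∀ (Y G : Type) [TopologicalSpace Y]
    [T2Space Y] [LocallyCompactSpace Y] [Group G] [MulAction G Y] [ContinuousConstSMul G Y],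
  (∀ K : Set Y, IsCompact K → {g : G | ∃ y ∈ K, g • y ∈ K}.Finite) →
  (∃ K : Set Y, IsCompact K ∧ ∀ y : Y, ∃ g : G, g • y ∈ K) →
  ∀ m : ℕ, (∀ y : Y, ∃ B : Set Y, IsOpen B ∧ y ∈ B ∧
    ∀ W : Set Y, IsOpen W → W ⊆ B → ∀ j : ℕ, m ≤ j + 1 → RA j W) →
  ∀ j : ℕ, m ≤ j + 1 → GAc G (j + 1) (univ : Set Y)

theorem bcob (hRED : S_RED) (hGI : GI) (hDUAL : TD.S_DUAL) (X Γ V U : Type)
    [TopologicalSpace X] [T2Space X] [LocallyCompactSpace X] [Group Γ] [MulAction Γ X]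
    (hXc : ∀ γ : Γ, Continuous fun x : X => γ • x)
    (hXpd : ∀ K : Set X, IsCompact K → {γ : Γ | ∃ x ∈ K, γ • x ∈ K}.Finite)
    (hfree : ∀ (γ : Γ) (x : X), γ • x = x → γ = 1)
    [NormedAddCommGroup V] [NormedSpace ℝ V] [FiniteDimensional ℝ V] [TopologicalSpace U]
    [T2Space U] [LocallyCompactSpace U] [MulAction Γ U] (θ : Γ →* (V ≃ₗ[ℝ] V)) (c : Γ → U → V)
    (hF : FSys V U Γ θ c) (e : X ≃ₜ V × U) (he : ∀ (γ : Γ) (x : X), e (γ • x) = fac θ c γ (e x))
    (hmean : ∀ u : U, PMean (MulAction.stabilizer Γ u))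
    (hpd : ∀ K : Set U, IsCompact K →
      {g : (MulAction.toPermHom Γ U).range | ∃ y ∈ K, (g : Equiv.Perm U) y ∈ K}.Finite)
    (hcc : ∃ K : Set U, IsCompact K ∧ ∀ y : U, ∃ γ : Γ, γ • y ∈ K) (m : ℕ)
    (hloc : ∀ y : U, ∃ B : Set U, IsOpen B ∧ y ∈ B ∧
      ∀ W : Set U, IsOpen W → W ⊆ B → ∀ j : ℕ, m ≤ j + 1 → RA j W)
    (k : ℕ) (hk : m ≤ k) (hk1 : 1 ≤ k) : BCob k (MulAction.orbitRel.Quotient Γ X) := by
  classical
  intro φ hφb hφc
  obtain ⟨C, hC⟩ := hφb
  let q : C(X, MulAction.orbitRel.Quotient Γ X) := ⟨fun x => Quotient.mk'' x, continuous_quotient_mk'⟩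
  let ec : C(X, V × U) := ⟨e, e.continuous⟩
  let es : C(V × U, X) := ⟨e.symm, e.symm.continuous⟩
  have hq : ∀ (γ : Γ) (x : X), q (γ • x) = q x := fun γ x =>
    Quotient.sound' (MulAction.orbitRel_apply.2 ⟨γ, rfl⟩)
  have hes : ∀ (γ : Γ) (p : V × U), es (fac θ c γ p) = γ • es p := by
    intro γ p
    apply e.injective
    show e (e.symm (fac θ c γ p)) = e (γ • e.symm p)
    rw [e.apply_symm_apply, he, e.apply_symm_apply]
  obtain ⟨β, η, hβi, hβc, hηi, hφβ⟩ := hRED V U Γ θ c hF hmean k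
    (fun s => φ (q.comp (es.comp s))) C (fun s => hC _)
    (by
      intro γ s s' h
      show φ (q.comp (es.comp s')) = φ (q.comp (es.comp s))
      congr 1
      ext t
      show q (es (s' t)) = q (es (s t))
      rw [h, hes, hq])
    (by
      intro τ
      have h1 := hφc (q.comp (es.comp τ))
      rw [← h1]
      rfl)
  -- the quotient
  have hcs : ContinuousConstSMul (MulAction.toPermHom Γ U).range U := by
    refine ⟨?_⟩
    rintro ⟨_, γ, rfl⟩
    exact hF.cont γ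
  have hGA : GAc (MulAction.toPermHom Γ U).range k (univ : Set U) := by
    obtain ⟨j, rfl⟩ : ∃ j, k = j + 1 := ⟨k - 1, by omega⟩
    refine hGI U (MulAction.toPermHom Γ U).range hpd ?_ m hloc j hk
    obtain ⟨K, hK, hKc⟩ := hcc
    refine ⟨K, hK, fun y => ?_⟩
    obtain ⟨γ, hγ⟩ := hKc y
    exact ⟨⟨MulAction.toPermHom Γ U γ, γ, rfl⟩, hγ⟩
  obtain ⟨α, hαi, hα⟩ := hDUAL U (MulAction.toPermHom Γ U).range k hGA β
    (by
      rintro ⟨_, γ, rfl⟩ u
      exact hβi γ u _ fun t => rfl)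
    hβc
  have hαγ : ∀ (γ : Γ) (u u' : C(Sx k, U)), (∀ t, u' t = γ • u t) → α u' = α u := by
    intro γ u u' h
    rw [← hαi (⟨MulAction.toPermHom Γ U γ, γ, rfl⟩ : (MulAction.toPermHom Γ U).range) u]
    congr 1
    ext t
    exact h t
  let pd : C(X, U) := ⟨fun x => (e x).2, continuous_snd.comp e.continuous⟩
  have hL := Pool.Agent.N278.SV.t_lift X Γ hXc hXpd hfree
  refine ⟨fun τ => α (pd.comp (hL k τ).1.choose) + η (ec.comp (hL k τ).1.choose), fun σ => ?_⟩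
  obtain ⟨s, hs⟩ := (hL (k + 1) σ).1
  have hσ : q.comp (es.comp (ec.comp s)) = σ := by
    ext t
    show q (e.symm (e (s t))) = σ t
    rw [e.symm_apply_apply]
    exact hs t
  have h1 := hφβ (ec.comp s) (pd.comp s) (fun t => rfl)
  rw [hσ] at h1
  rw [h1, hα (pd.comp s), ← Finset.sum_add_distrib]
  refine Finset.sum_congr rfl fun i _ => ?_
  rw [← mul_add]
  congr 1
  have hc := (hL k (σ.comp (face i))).1.choose_spec
  obtain ⟨γ, hγ⟩ := (hL k (σ.comp (face i))).2 (hL k (σ.comp (face i))).1.choose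
    (s.comp (face i)) hc (fun t => (hs (face i t)))
  congr 1
  · refine hαγ γ (pd.comp (hL k (σ.comp (face i))).1.choose) ((pd.comp s).comp (face i))
      fun t => ?_
    show (e ((s.comp (face i)) t)).2 = _
    rw [hγ, he]
    rfl
  · refine hηi γ (ec.comp (hL k (σ.comp (face i))).1.choose) ((ec.comp s).comp (face i))
      fun t => ?_
    show e ((s.comp (face i)) t) = _
    rw [hγ, he]
    rfl

end Pool.Agent.P8H67.TU
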