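import Pool.Agent.P8H67.TU.Stm

/-!
Project TU, second statement file (one package).
-/

set_option autoImplicit false

namespace Pool.Agent.P8H67.TU

/-- RANK (60 lines). `Λ = {a | ∃ ν ∈ N, ∀ p, hol ν p = Φ a p}` is a discrete (`Latt`) additive subgroup of
`ℝ^d` which spans it (`spn`), so it is a free `ℤ`-module of rank `d` (`ZLattice.rank`); `ν ↦ a` is an injective
homomorphism from `N` to `Λ` (`sub`; `a` is determined by `ν` by `faith`; injective since `hol` is). Compose
with `f`. -/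
def S_RANK : Prop := ∀ (E Γ : Type) [NormedAddCommGroup E] [NormedSpace ℝ E]
    [FiniteDimensional ℝ E] [Group Γ] (hol : Γ →* (E ≃ᵃ[ℝ] E)) (N : Subgroup Γ) (d : ℕ)
    (Φ : (Fin d → ℝ) → E → E) (θ : Γ →* ((Fin d → ℝ) ≃ₗ[ℝ] (Fin d → ℝ))),
  Function.Injective hol → Flow E Γ hol N d Φ θ → Latt E Γ hol N d Φ →
  ∀ (r : ℕ) (f : Multiplicative (Fin r → ℤ) →* N), Function.Injective f → r ≤ d

end Pool.Agent.P8H67.TU
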