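import Pool.Agent.P8H67.TU.Hom
import Pool.Agent.P8H67.TU.Cob
import Pool.Agent.P8H67.TU.Stm2
import Pool.Agent.P8H67.TD.All

/-!
Project TU: assembly.
-/

set_option autoImplicit false

open Set Filter Topology Metric
open Pool.Agent.W689.Mk

namespace Pool.Agent.P8H67.TU

open Pool.Agent.N520.SV (Sx Chain face bdry norm1 BCob seminorm1)
open Pool.Agent.P8H67.TD (RA GAc PMean AffD VSolv)

section
variable {X Γ E : Type} [NormedAddCommGroup E] [NormedSpace ℝ E] [FiniteDimensional ℝ E]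
    [TopologicalSpace X] [T2Space X] [Nonempty X] [Group Γ] [MulAction Γ X] {dev : X → E}
    {hol : Γ →* (E ≃ᵃ[ℝ] E)}

theorem dom_of (D : AffD X Γ E dev hol) (hfree : ∀ (γ : Γ) (x : X), γ • x = x → γ = 1)
    (hinj : Function.Injective dev) : Dom E Γ hol (range dev) := by
  refine ⟨D.loc.isOpenMap.isOpen_range, range_nonempty _, TD.g_range_inv D, ?_,
    fun K hK hKc => TD.g_range_pd D hinj K hKc hK, ?_⟩
  · rintro γ _ ⟨x, rfl⟩ h
    refine hfree γ x (hinj ?_)
    rw [D.equi, h]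
  · obtain ⟨C0, hC0, hC0r, hcc⟩ := TD.g_range_cc D
    exact ⟨C0, hC0r, hC0, hcc⟩

/-- the theorem for commutative normal subgroups -/
theorem comm_case (hLATT : S_LATT) (hSATU : S_SATU) (hPROP : S_PROP) (hTRIV : S_TRIV) (hLOCU : S_LOCU) (hGIND : S_GIND) (hPRG : S_PRG)
    (hRED : S_RED) (D : AffD X Γ E dev hol) (hfree : ∀ (γ : Γ) (x : X), γ • x = x → γ = 1)
    (hinj : Function.Injective dev) (N : Subgroup Γ) [N.Normal] (hN : N ≠ ⊥)
    (hab : ∀ a ∈ N, ∀ b ∈ N, a * b = b * a)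
    (hfl : ∃ (d : ℕ) (Φ : (Fin d → ℝ) → E → E) (θ : Γ →* ((Fin d → ℝ) ≃ₗ[ℝ] (Fin d → ℝ))),
      Flow E Γ hol N d Φ θ) :
    ∃ (d : ℕ) (Φ : (Fin d → ℝ) → E → E) (θ : Γ →* ((Fin d → ℝ) ≃ₗ[ℝ] (Fin d → ℝ))),
      Flow E Γ hol N d Φ θ ∧ Latt E Γ hol N d Φ ∧ 1 ≤ d ∧ ∀ k : ℕ, 1 ≤ k →
      Module.finrank ℝ E ≤ d + k → ∀ z : Chain (k + 1) (MulAction.orbitRel.Quotient Γ X),
        bdry k z = 0 → seminorm1 z = 0 := by
  have hDom := dom_of D hfree hinj
  have hhol : Function.Injective hol := by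
    rw [injective_iff_map_eq_one]
    intro γ hγ
    obtain ⟨x⟩ := (inferInstance : Nonempty X)
    refine hfree γ x (hinj ?_)
    rw [D.equi, hγ]
    rfl
  obtain ⟨d, Φ, θ, hF⟩ := hfl
  have hL := hLATT E Γ hol N (range dev) d Φ θ hDom hF
  have hS := hSATU E Γ hol N (range dev) d Φ θ hDom hF hL
  obtain ⟨hP, R, hR⟩ := hPROP E Γ hol N (range dev) d Φ θ hDom hF hL hS
  obtain ⟨F, hFc, hFe⟩ := hTRIV E (range dev) d Φ hDom.opn hF.smooth.continuous hF.zero hF.add hS hP
  have hd : 1 ≤ d := by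
    by_contra h0
    have h1 : d = 0 := by omega
    subst h1
    apply hN
    rw [eq_bot_iff]
    intro ν hν
    obtain ⟨a, ha⟩ := hF.sub ν hν
    rw [Subgroup.mem_bot]
    apply hhol
    rw [map_one]
    refine AffineEquiv.ext fun p => ?_
    rw [ha, Subsingleton.elim a 0, hF.zero]
    rfl
  obtain ⟨act, c, e0, hFS, he0, hN0⟩ := hom hDom hF hS hFc hFe
  have hemb : IsOpenEmbedding dev := D.loc.isOpenEmbedding_of_injective hinj
  have : LocallyCompactSpace X := hemb.locallyCompactSpace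
  let e1 : X ≃ₜ range dev := hemb.isEmbedding.toHomeomorph
  let e : X ≃ₜ (Fin d → ℝ) × Sl (range dev) F := e1.trans e0
  have he : ∀ (γ : Γ) (x : X), e (γ • x) = fac θ c γ (e x) := by
    intro γ x
    show e0 (e1 (γ • x)) = fac θ c γ (e0 (e1 x))
    rw [← he0]
    congr 1
    exact Subtype.ext (D.equi γ x)
  -- local compactness of the slice
  have : LocallyCompactSpace (Sl (range dev) F) := by
    have h1 : IsOpen (range dev) := hDom.opn
    have : LocallyCompactSpace (range dev) := h1.locallyCompactSpace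
    have h2 : LocallyCompactSpace ((Fin d → ℝ) × Sl (range dev) F) :=
      e0.symm.isOpenEmbedding.locallyCompactSpace
    let ι : Sl (range dev) F → (Fin d → ℝ) × Sl (range dev) F := fun u => (0, u)
    have h3 : IsClosedEmbedding ι := by
      refine ⟨⟨?_, fun a b h => congrArg Prod.snd h⟩, ?_⟩
      · refine ⟨?_⟩
        apply le_antisymm
        · rw [← continuous_iff_le_induced]
          exact continuous_const.prodMk continuous_id
        · intro s hs
          refine isOpen_induced_iff.2 ⟨Prod.snd ⁻¹' s, hs.preimage continuous_snd, rfl⟩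
      · have h4 : range ι = Prod.fst ⁻¹' {(0 : Fin d → ℝ)} := by
          ext p
          constructor
          · rintro ⟨u, rfl⟩
            rfl
          · intro hp
            exact ⟨p.2, Prod.ext (mem_singleton_iff.1 hp).symm rfl⟩
        rw [h4]
        exact isClosed_singleton.preimage continuous_fst
    exact h3.locallyCompactSpace
  -- the action on the slice
  have hpdf : ∀ K : Set ((Fin d → ℝ) × Sl (range dev) F), IsCompact K →
      {γ : Γ | ∃ p ∈ K, fac θ c γ p ∈ K}.Finite := by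
    intro K hK
    refine (D.pd (e ⁻¹' K) (e.isCompact_preimage.2 hK)).subset ?_
    rintro γ ⟨p, hp, hγ⟩
    refine ⟨e.symm p, ?_, ?_⟩
    · show e (e.symm p) ∈ K
      rwa [e.apply_symm_apply]
    · show e (γ • e.symm p) ∈ K
      rwa [he, e.apply_symm_apply]
  have hccf : ∃ K : Set ((Fin d → ℝ) × Sl (range dev) F), IsCompact K ∧
      ∀ p, ∃ γ : Γ, fac θ c γ p ∈ K := by
    obtain ⟨K, hK, hKc⟩ := D.cc
    refine ⟨e '' K, hK.image e.continuous, fun p => ?_⟩
    obtain ⟨γ, x, hx, hγ⟩ := hKc (e.symm p)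
    refine ⟨γ⁻¹, x, hx, ?_⟩
    have h1 : x = γ⁻¹ • e.symm p := by rw [← hγ, inv_smul_smul]
    rw [h1, he, e.apply_symm_apply]
  obtain ⟨hpdU, hccU, hfi⟩ := hPRG (Fin d → ℝ) (Sl (range dev) F) Γ θ c N R hFS hpdf hccf
    (fun ν hν => by
      obtain ⟨a, ha⟩ := hF.sub ν hν
      exact ⟨a, hN0 ν hν a ha⟩)
    (fun w => by
      obtain ⟨ν, hν, a, ha, hwa⟩ := hR w
      exact ⟨ν, hν, a, hN0 ν hν a ha, hwa⟩)
  have hmean : ∀ u : Sl (range dev) F, PMean (MulAction.stabilizer Γ u) := by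
    intro u
    refine Pool.Agent.P8H80.TD.pmean _ (N.subgroupOf (MulAction.stabilizer Γ u)) (hfi u) ?_
    refine Group.isSolvable_of_comm fun a b => Subtype.ext (Subtype.ext ?_)
    exact hab _ a.2 _ b.2
  have hGI : GI := hGIND Pool.Agent.P8H42.TD.sub Pool.Agent.P8H45.TD.gmv Pool.Agent.P8H66.TD.gloc
  refine ⟨d, Φ, θ, hF, hL, hd, fun k hk1 hk z hz => ?_⟩
  have hb := bcob hRED hGI Pool.Agent.P8H45.TD.dual X Γ (Fin d → ℝ) (Sl (range dev) F) D.cont D.pd
    hfree θ c hFS e he hmean hpdU hccU (Module.finrank ℝ E - d)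
    (fun u => by
      obtain ⟨B, hB, hu, hW⟩ := hLOCU TD.qhc E (range dev) d Φ F hDom.opn hF.smooth hF.zero hF.add
        hF.imm hS hP hFc hFe u
      exact ⟨B, hB, hu, fun W hWo hWB j hj => hW W hWo hWB j (by omega)⟩)
    k (by omega) hk1
  exact (Pool.Agent.N340.SV.HB.t_hb _ k hb).seminorm1_eq_zero z hz

end

end Pool.Agent.P8H67.TU
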