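import Pool.Agent.P8H67.TU.Stm

/-!
Project TU: the domain is `V × U`.
-/

set_option autoImplicit false

open Set Filter Topology

namespace Pool.Agent.P8H67.TU

section
variable {E Γ : Type} [NormedAddCommGroup E] [NormedSpace ℝ E] [FiniteDimensional ℝ E] [Group Γ]
  {hol : Γ →* (E ≃ᵃ[ℝ] E)} {N : Subgroup Γ} {Ω : Set E} {d : ℕ} {Φ : (Fin d → ℝ) → E → E}
  {θ : Γ →* ((Fin d → ℝ) ≃ₗ[ℝ] (Fin d → ℝ))} {F : E → (Fin d → ℝ)}

/-- the slice -/
abbrev Sl (Ω : Set E) (F : E → (Fin d → ℝ)) : Type := {p : E // p ∈ Ω ∧ F p = 0}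

theorem hom (hD : Dom E Γ hol Ω) (hF : Flow E Γ hol N d Φ θ) (hS : Satu E Ω d Φ)
    (hFc : ContinuousOn F Ω) (hFe : ∀ a, ∀ p ∈ Ω, F (Φ a p) = F p + a) :
    ∃ (act : MulAction Γ (Sl Ω F)) (c : Γ → Sl Ω F → (Fin d → ℝ))
      (e : Ω ≃ₜ (Fin d → ℝ) × Sl Ω F), FSys (Fin d → ℝ) (Sl Ω F) Γ θ c ∧
      (∀ (γ : Γ) (p : Ω), e ⟨hol γ p, hD.inv γ p p.2⟩ = fac θ c γ (e p)) ∧
      ∀ ν ∈ N, ∀ a, (∀ p, hol ν p = Φ a p) → ∀ p, fac θ c ν p = (p.1 + a, p.2) := by
  have hcan : ∀ a p, Φ (-a) (Φ a p) = p := by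
    intro a p
    rw [← hF.add, neg_add_cancel, hF.zero]
  have hcan' : ∀ a p, Φ a (Φ (-a) p) = p := by
    intro a p
    rw [← hF.add, add_neg_cancel, hF.zero]
  have hΦc : Continuous (fun x : (Fin d → ℝ) × E => Φ x.1 x.2) := hF.smooth.continuous
  have hhc : ∀ γ : Γ, Continuous fun p : E => hol γ p := fun γ =>
    AffineEquiv.continuous_of_finiteDimensional (hol γ)
  -- the projection to the slice
  have hpr : ∀ p ∈ Ω, Φ (-F p) p ∈ Ω ∧ F (Φ (-F p) p) = 0 := by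
    intro p hp
    refine ⟨hS _ p hp, ?_⟩
    rw [hFe _ p hp, add_neg_cancel]
  let pr : Ω → Sl Ω F := fun p => ⟨Φ (-F p) p, hpr p p.2⟩
  have hFr : Continuous fun p : Ω => F p := hFc.domRestrict
  have hprc : Continuous pr := by
    refine Continuous.subtype_mk ?_ _
    exact hΦc.comp (hFr.neg.prodMk continuous_subtype_val)
  -- the projection is invariant under the flow
  have hpri : ∀ (a : Fin d → ℝ) (p : E) (hp : p ∈ Ω), pr ⟨Φ a p, hS a p hp⟩ = pr ⟨p, hp⟩ := by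
    intro a p hp
    apply Subtype.ext
    show Φ (-F (Φ a p)) (Φ a p) = Φ (-F p) p
    rw [hFe a p hp, neg_add, hF.add, hcan]
  let act : MulAction Γ (Sl Ω F) :=
    { smul := fun γ u => pr ⟨hol γ u, hD.inv γ u u.2.1⟩
      one_smul := by
        intro u
        apply Subtype.ext
        show Φ (-F (hol 1 (u : E))) (hol 1 (u : E)) = u
        rw [map_one]
        show Φ (-F (u : E)) (u : E) = u
        rw [u.2.2, neg_zero, hF.zero]
      mul_smul := by
        intro γ δ u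
        show pr ⟨hol (γ * δ) u, _⟩ = pr ⟨hol γ (pr ⟨hol δ u, _⟩ : Sl Ω F), _⟩
        have h1 : (hol γ (pr ⟨hol δ u, hD.inv δ u u.2.1⟩ : Sl Ω F) : E) =
            Φ (θ γ (-F (hol δ u))) (hol γ (hol δ u)) := hF.equi γ _ _
        have h2 : hol (γ * δ) (u : E) = hol γ (hol δ (u : E)) := by
          rw [map_mul]; rfl
        have h3 := hpri (θ γ (-F (hol δ u))) (hol γ (hol δ u))
          (hD.inv γ _ (hD.inv δ u u.2.1))
        have h4 : (⟨hol γ (pr ⟨hol δ u, hD.inv δ u u.2.1⟩ : Sl Ω F), hD.inv γ _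
            (pr ⟨hol δ u, hD.inv δ u u.2.1⟩ : Sl Ω F).2.1⟩ : Ω) =
            ⟨Φ (θ γ (-F (hol δ u))) (hol γ (hol δ u)), hS _ _
              (hD.inv γ _ (hD.inv δ u u.2.1))⟩ := Subtype.ext h1
        have h5 : (⟨hol (γ * δ) (u : E), hD.inv (γ * δ) u u.2.1⟩ : Ω) =
            ⟨hol γ (hol δ (u : E)), hD.inv γ _ (hD.inv δ u u.2.1)⟩ := Subtype.ext h2
        rw [h4, h5, h3] }
  have hsm : ∀ (γ : Γ) (u : Sl Ω F), γ • u = pr ⟨hol γ u, hD.inv γ u u.2.1⟩ := fun _ _ => rfl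
  let c : Γ → Sl Ω F → (Fin d → ℝ) := fun γ u => F (hol γ u)
  let e : Ω ≃ₜ (Fin d → ℝ) × Sl Ω F :=
    { toFun := fun p => (F p, pr p)
      invFun := fun x => ⟨Φ x.1 x.2, hS _ _ x.2.2.1⟩
      left_inv := by
        intro p
        apply Subtype.ext
        exact hcan' _ _
      right_inv := by
        rintro ⟨a, u⟩
        have h1 : F (Φ a (u : E)) = a := by rw [hFe a u u.2.1, u.2.2, zero_add]
        refine Prod.ext h1 (Subtype.ext ?_)
        show Φ (-F (Φ a (u : E))) (Φ a (u : E)) = u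
        rw [h1, hcan]
      continuous_toFun := hFr.prodMk hprc
      continuous_invFun := by
        refine Continuous.subtype_mk ?_ _
        exact hΦc.comp (continuous_fst.prodMk (continuous_subtype_val.comp continuous_snd)) }
  have hce : ∀ (γ : Γ) (p : Ω), F (hol γ (pr p : Sl Ω F)) = F (hol γ p) - θ γ (F p) := by
    intro γ p
    show F (hol γ (Φ (-F p) p)) = _
    rw [hF.equi, hFe _ _ (hD.inv γ p p.2), map_neg, sub_eq_add_neg]
  have hequi : ∀ (γ : Γ) (p : Ω), e ⟨hol γ p, hD.inv γ p p.2⟩ = fac θ c γ (e p) := by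
    intro γ p
    refine Prod.ext ?_ ?_
    · show F (hol γ p) = θ γ (F p) + F (hol γ (pr p : Sl Ω F))
      rw [hce]; abel
    · show pr ⟨hol γ p, _⟩ = γ • pr p
      rw [hsm]
      have h1 : (⟨hol γ (pr p : Sl Ω F), hD.inv γ _ (pr p).2.1⟩ : Ω) =
          ⟨Φ (θ γ (-F p)) (hol γ p), hS _ _ (hD.inv γ p p.2)⟩ := Subtype.ext (hF.equi γ _ _)
      rw [h1, hpri]
  refine ⟨act, c, e, ⟨?_, ?_, ?_, ?_⟩, hequi, ?_⟩
  · intro γ
    refine hprc.comp ?_
    exact Continuous.subtype_mk ((hhc γ).comp continuous_subtype_val) _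
  · intro γ
    exact hFr.comp (Continuous.subtype_mk ((hhc γ).comp continuous_subtype_val)
      fun u : Sl Ω F => hD.inv γ u u.2.1)
  · intro γ δ u
    show F (hol (γ * δ) u) = θ γ (F (hol δ u)) + F (hol γ (pr ⟨hol δ u, _⟩ : Sl Ω F))
    rw [hce]
    have h2 : hol (γ * δ) (u : E) = hol γ (hol δ (u : E)) := by
      rw [map_mul]; rfl
    rw [h2]
    abel
  · intro γ p hp
    have h1 := hequi γ (e.symm p)
    rw [e.apply_symm_apply, hp] at h1
    have h2 := congrArg e.symm h1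
    rw [e.symm_apply_apply] at h2
    exact hD.free γ _ (e.symm p).2 (congrArg Subtype.val h2)
  · intro ν hν a ha p
    obtain ⟨b, u⟩ := p
    have hθ : θ ν b = b := by
      have h1 : ∀ q, Φ (θ ν b - b) q = q := by
        intro q
        have h2 := hF.equi ν b (Φ (-a) q)
        rw [ha, ha, hcan', ← hF.add, add_comm a b, hF.add, hcan'] at h2
        rw [sub_eq_neg_add, hF.add, ← h2, hcan]
      exact sub_eq_zero.1 (hF.faith _ h1)
    refine Prod.ext ?_ ?_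
    · show θ ν b + F (hol ν u) = b + a
      rw [hθ, ha, hFe a u u.2.1, u.2.2, zero_add]
    · show ν • u = u
      rw [hsm]
      have h1 : (⟨hol ν (u : E), hD.inv ν u u.2.1⟩ : Ω) = ⟨Φ a u, hS a u u.2.1⟩ :=
        Subtype.ext (ha u)
      rw [h1, hpri a u u.2.1]
      apply Subtype.ext
      show Φ (-F (u : E)) (u : E) = u
      rw [u.2.2, neg_zero, hF.zero]

end

end Pool.Agent.P8H67.TU
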