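import Pool.Agent.P8H67.TU.Fin

/-!
Project TU: the theorem for arbitrary normal unipotent subgroups.
-/

set_option autoImplicit false

open Set Filter Topology Metric
open Pool.Agent.W689.Mk

namespace Pool.Agent.P8H67.TU

open Pool.Agent.N520.SV (Sx Chain face bdry norm1 BCob seminorm1)
open Pool.Agent.P8H67.TD (RA GAc PMean AffD VSolv)

section
variable {X Γ E : Type} [NormedAddCommGroup E] [NormedSpace ℝ E] [FiniteDimensional ℝ E]
    [TopologicalSpace X] [T2Space X] [Nonempty X] [Group Γ] [MulAction Γ X] {dev : X → E}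
    {hol : Γ →* (E ≃ᵃ[ℝ] E)}

omit [FiniteDimensional ℝ E] in
/-- nilpotent endomorphisms of a line are zero -/
theorem nil_line (h1 : Module.finrank ℝ E = 1) (A : E →ₗ[ℝ] E) (hA : IsNilpotent A) : A = 0 := by
  obtain ⟨v, hv, hspan⟩ := finrank_eq_one_iff'.1 h1
  obtain ⟨c, hc⟩ := hspan (A v)
  obtain ⟨n, hn⟩ := hA
  have h2 : ∀ m : ℕ, (A ^ m) v = c ^ m • v := by
    intro m
    induction m with
    | zero => simp
    | succ m ih => rw [pow_succ', Module.End.mul_apply, ih, map_smul, ← hc, smul_smul, pow_succ]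
  have h3 : c ^ n • v = 0 := by rw [← h2, hn]; rfl
  have h4 : c = 0 := by
    rcases smul_eq_zero.1 h3 with h | h
    · exact (pow_eq_zero_iff (fun h0 => by simp [h0] at h)).1 h
    · exact absurd h hv
  refine LinearMap.ext fun w => ?_
  obtain ⟨t, ht⟩ := hspan w
  rw [← ht, map_smul, ← hc, h4, zero_smul, smul_zero]
  rfl

theorem main (hCENT : S_CENT) (hLOG : S_LOG) (hFLOW : S_FLOW) (hLATT : S_LATT) (hSATU : S_SATU)
    (hPROP : S_PROP) (hTRIV : S_TRIV) (hLOCU : S_LOCU) (hGIND : S_GIND) (hPRG : S_PRG)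
    (hRED : S_RED) (D : AffD X Γ E dev hol) (hfree : ∀ (γ : Γ) (x : X), γ • x = x → γ = 1)
    (hinj : Function.Injective dev) (N : Subgroup Γ) [N.Normal] (hN : N ≠ ⊥)
    (huni : ∀ ν ∈ N, IsNilpotent (((hol ν).linear : E →ₗ[ℝ] E) - LinearMap.id)) (k : ℕ)
    (hk : Module.finrank ℝ E ≤ k + 1) (z : Chain (k + 1) (MulAction.orbitRel.Quotient Γ X))
    (hz : bdry k z = 0) : seminorm1 z = 0 := by
  have hhol : Function.Injective hol := by
    rw [injective_iff_map_eq_one]
    intro γ hγ
    obtain ⟨x⟩ := (inferInstance : Nonempty X)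
    refine hfree γ x (hinj ?_)
    rw [D.equi, hγ]
    rfl
  have hNt : Nontrivial N := (Subgroup.nontrivial_iff_ne_bot N).2 hN
  rcases Nat.lt_or_ge (Module.finrank ℝ E) 2 with hlt | hge
  · -- dimension zero and one
    obtain ⟨ν, hν⟩ := exists_ne (1 : N)
    have hν1 : (ν : Γ) ≠ 1 := fun h => hν (Subtype.ext h)
    rcases Nat.eq_zero_or_pos (Module.finrank ℝ E) with h0 | hpos
    · exfalso
      have hE : Subsingleton E := Module.finrank_zero_iff.1 h0
      apply hν1
      apply hhol
      exact AffineEquiv.ext fun p => Subsingleton.elim _ _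
    · have h1 : Module.finrank ℝ E = 1 := by omega
      have h2 := nil_line h1 _ (huni ν ν.2)
      have h3 : ∀ p, hol ν p = p + hol ν 0 := by
        intro p
        have h4 := Pool.Agent.W689.Mk.hol_add (hol := hol) (ν : Γ) 0 p
        rw [zero_add] at h4
        rw [h4, add_comm]
        congr 1
        have h5 := LinearMap.congr_fun h2 p
        exact sub_eq_zero.1 h5
      refine TD.td_trans X Γ E dev hol D hfree hinj ⟨ν, hol ν 0, fun h4 => hν1 (hhol ?_), h3⟩ k hk
        z hz
      refine AffineEquiv.ext fun p => ?_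
      rw [h3, h4, add_zero, map_one]
      rfl
  · obtain ⟨N', hN'⟩ : ∃ N' : Subgroup Γ, N' = N ⊓ Subgroup.centralizer N := ⟨_, rfl⟩
    have hnorm : N'.Normal := by rw [hN']; infer_instance
    have hle : N' ≤ N := by rw [hN']; exact inf_le_left
    have hne : N' ≠ ⊥ := by
      obtain ⟨w, hw, hwc⟩ := hCENT E N (hol.comp N.subtype)
        (hhol.comp Subtype.val_injective) (fun g => huni g g.2) hNt
      intro h
      apply hw
      have h1 : (w : Γ) ∈ N' := by
        rw [hN']
        refine ⟨w.2, Subgroup.mem_centralizer_iff.2 fun g hg => ?_⟩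
        exact congrArg Subtype.val (hwc ⟨g, hg⟩)
      rw [h, Subgroup.mem_bot] at h1
      exact Subtype.ext h1
    have hab : ∀ a ∈ N', ∀ b ∈ N', a * b = b * a := by
      intro a ha b hb
      have h1 : b ∈ Subgroup.centralizer (N : Set Γ) := by
        rw [hN'] at hb
        exact hb.2
      exact Subgroup.mem_centralizer_iff.1 h1 a (hle ha)
    obtain ⟨d, Φ, θ, -, -, hd, h⟩ := comm_case hLATT hSATU hPROP hTRIV hLOCU hGIND hPRG
      hRED D hfree hinj N' hne hab (hFLOW hLOG E Γ hol N' hab (fun ν hν => huni ν (hle hν)))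
    exact h k (by omega) (by omega) z hz

end

end Pool.Agent.P8H67.TU
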