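import Pool.Agent.P8H67.TU.Stm

/-!
Project TU, fourth statement file: degree one.
-/

set_option autoImplicit false

namespace Pool.Agent.P8H67.TU

open Pool.Agent.N520.SV (Sx Chain face bdry norm1 BCob)

/-- BZ (120 lines). Bounded cocycles `φ` of degree one are coboundaries, for every space. A singular
`1`-simplex is a path from `σ ∘ face 1` (vertex `0`) to `σ ∘ face 0` (vertex `1`). If `a` is a path from `x` to
`y` and `b` one from `y` to `z` then `φ (a * b) = φ a + φ b`: the `2`-simplex with faces `b`, `a * b`, `a` is
`t ↦ (a * b)(t_1 / 2 + t_2)`. So for a loop `l` one has `φ (l ^ n) = n φ l`, bounded, so `φ l = 0`; and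
`φ` (reversed path) `= - φ` (path). Choose a base point in each path component (e.g. by choice on
`ZerothHomotopy M`), paths `g x` from the base point to `x`, and put `ψ (point x) = φ (g x)`: the loop
`g x * σ * (reversed g y)` gives `φ σ = ψ y - ψ x`. -/
def S_BZ : Prop := ∀ (M : Type) [TopologicalSpace M], BCob 0 M

end Pool.Agent.P8H67.TU
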