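import Pool.Agent.P8H67.TU.Fin
import Pool.Agent.P8H67.TU.Stm3
import Pool.Agent.P8H67.TU.Stm4

/-!
Project TU: the theorem for normal solvable subgroups with positive eigenvalues, and for normal
unipotent subgroups.
-/

set_option autoImplicit false

open Set Filter Topology Metric
open scoped commutatorElement
open Pool.Agent.W689.Mk

namespace Pool.Agent.P8H67.TU

open Pool.Agent.N520.SV (Sx Chain face bdry norm1 BCob seminorm1)
open Pool.Agent.P8H67.TD (RA GAc PMean AffD VSolv)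

/-- a property of subgroups which gives flows -/
def Flows {E Γ : Type} [NormedAddCommGroup E] [NormedSpace ℝ E] [Group Γ]
    (hol : Γ →* (E ≃ᵃ[ℝ] E)) (P : Γ → Prop) : Prop :=
  ∀ N : Subgroup Γ, N.Normal → (∀ a ∈ N, ∀ b ∈ N, a * b = b * a) → (∀ ν ∈ N, P ν) →
    ∃ (d : ℕ) (Φ : (Fin d → ℝ) → E → E) (θ : Γ →* ((Fin d → ℝ) ≃ₗ[ℝ] (Fin d → ℝ))),
      Flow E Γ hol N d Φ θ

section
variable {X Γ E : Type} [NormedAddCommGroup E] [NormedSpace ℝ E] [FiniteDimensional ℝ E]
    [TopologicalSpace X] [T2Space X] [Nonempty X] [Group Γ] [MulAction Γ X] {dev : X → E}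
    {hol : Γ →* (E ≃ᵃ[ℝ] E)}

theorem hol_inj (D : AffD X Γ E dev hol) (hfree : ∀ (γ : Γ) (x : X), γ • x = x → γ = 1)
    (hinj : Function.Injective dev) : Function.Injective hol := by
  rw [injective_iff_map_eq_one]
  intro γ hγ
  obtain ⟨x⟩ := (inferInstance : Nonempty X)
  refine hfree γ x (hinj ?_)
  rw [D.equi, hγ]
  rfl

/-- abelian normal subgroups, with the rank -/
theorem comm_rank (hRANK : S_RANK) (hBZ : S_BZ) (hLATT : S_LATT) (hSATU : S_SATU)
    (hPROP : S_PROP) (hTRIV : S_TRIV) (hLOCU : S_LOCU) (hGIND : S_GIND) (hPRG : S_PRG)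
    (hRED : S_RED) (D : AffD X Γ E dev hol) (hfree : ∀ (γ : Γ) (x : X), γ • x = x → γ = 1)
    (hinj : Function.Injective dev) (P : Γ → Prop) (hP : Flows hol P) (N : Subgroup Γ)
    (hNn : N.Normal) (hN : N ≠ ⊥) (hab : ∀ a ∈ N, ∀ b ∈ N, a * b = b * a) (hNP : ∀ ν ∈ N, P ν)
    (r : ℕ) (hr : ∃ f : Multiplicative (Fin r → ℤ) →* N, Function.Injective f) (k : ℕ)
    (hk : Module.finrank ℝ E ≤ r + k ∨ Module.finrank ℝ E ≤ k + 1)
    (z : Chain (k + 1) (MulAction.orbitRel.Quotient Γ X)) (hz : bdry k z = 0) :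
    seminorm1 z = 0 := by
  rcases Nat.eq_zero_or_pos k with h0 | hpos
  · subst h0
    exact (Pool.Agent.N340.SV.HB.t_hb _ 0 (hBZ _)).seminorm1_eq_zero z hz
  obtain ⟨d, Φ, θ, hF, hL, hd, h⟩ := comm_case hLATT hSATU hPROP hTRIV hLOCU hGIND hPRG hRED D
    hfree hinj N hN hab (hP N hNn hab hNP)
  refine h k hpos ?_ z hz
  rcases hk with hk | hk
  · obtain ⟨f, hf⟩ := hr
    have hrd := hRANK E Γ hol N d Φ θ (hol_inj D hfree hinj) hF hL r f hf
    omega
  · omega

/-- the trivial free abelian subgroup -/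
theorem rank_zero (N : Subgroup Γ) :
    ∃ f : Multiplicative (Fin 0 → ℤ) →* N, Function.Injective f := by
  have hs : Subsingleton (Multiplicative (Fin 0 → ℤ)) :=
    inferInstanceAs (Subsingleton (Fin 0 → ℤ))
  exact ⟨1, Function.injective_of_subsingleton _⟩

/-- solvable normal subgroups -/
theorem solv_case (hRANK : S_RANK) (hBZ : S_BZ) (hLATT : S_LATT) (hSATU : S_SATU)
    (hPROP : S_PROP) (hTRIV : S_TRIV) (hLOCU : S_LOCU) (hGIND : S_GIND) (hPRG : S_PRG)
    (hRED : S_RED) (D : AffD X Γ E dev hol) (hfree : ∀ (γ : Γ) (x : X), γ • x = x → γ = 1)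
    (hinj : Function.Injective dev) (P : Γ → Prop) (hP : Flows hol P) (N : Subgroup Γ)
    (hNn : N.Normal) (hN : N ≠ ⊥) (hsol : Group.IsSolvable N) (hNP : ∀ ν ∈ N, P ν) (k : ℕ)
    (hk : Module.finrank ℝ E ≤ k + 1) (z : Chain (k + 1) (MulAction.orbitRel.Quotient Γ X))
    (hz : bdry k z = 0) : seminorm1 z = 0 := by
  classical
  have hex : ∃ m, derivedSeries N m = ⊥ := hsol.solvable
  obtain ⟨m, hm⟩ : ∃ m, m = Nat.find hex := ⟨_, rfl⟩
  have hm1 : derivedSeries N m = ⊥ := by rw [hm]; exact Nat.find_spec hex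
  have hm0 : m ≠ 0 := by
    intro h0
    rw [h0, derivedSeries_zero] at hm1
    apply hN
    rw [eq_bot_iff]
    intro ν hν
    have h1 : (⟨ν, hν⟩ : N) ∈ (⊤ : Subgroup N) := trivial
    rw [hm1, Subgroup.mem_bot] at h1
    exact congrArg Subtype.val h1
  obtain ⟨j, rfl⟩ := Nat.exists_eq_succ_of_ne_zero hm0
  have hj : derivedSeries N j ≠ ⊥ := Nat.find_min hex (by rw [← hm]; exact Nat.lt_succ_self j)
  have hchar : (derivedSeries N j).Characteristic := derivedSeries_characteristic N j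
  obtain ⟨N', hN'⟩ : ∃ N' : Subgroup Γ, N' = (derivedSeries N j).map N.subtype := ⟨_, rfl⟩
  have hnorm : N'.Normal := by
    rw [hN']
    exact ConjAct.normal_of_characteristic_of_normal
  have hle : N' ≤ N := by
    rw [hN']
    rintro _ ⟨x, -, rfl⟩
    exact x.2
  have hne : N' ≠ ⊥ := by
    rw [hN']
    intro h
    apply hj
    exact (Subgroup.map_eq_bot_iff_of_injective _ Subtype.val_injective).1 h
  have hab : ∀ a ∈ N', ∀ b ∈ N', a * b = b * a := by
    intro a ha b hb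
    rw [hN'] at ha hb
    obtain ⟨x, hx, rfl⟩ := ha
    obtain ⟨y, hy, rfl⟩ := hb
    have h1 : ⁅x, y⁆ ∈ derivedSeries N (j + 1) := by
      rw [derivedSeries_succ]
      exact Subgroup.commutator_mem_commutator hx hy
    have h2 : ⁅x, y⁆ = 1 := by
      have h3 : derivedSeries N (j + 1) = ⊥ := hm1
      rw [h3] at h1
      exact Subgroup.mem_bot.1 h1
    have h4 := commutatorElement_eq_one_iff_mul_comm.1 h2
    exact congrArg Subtype.val h4
  exact comm_rank hRANK hBZ hLATT hSATU hPROP hTRIV hLOCU hGIND hPRG hRED D hfree hinj P hP N'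
    hnorm hne hab (fun ν hν => hNP ν (hle hν)) 0 (rank_zero N') k (Or.inr hk) z hz

/-- unipotent normal subgroups -/
theorem uni_case (hCENT : S_CENT) (hRANK : S_RANK) (hBZ : S_BZ) (hLATT : S_LATT)
    (hSATU : S_SATU) (hPROP : S_PROP) (hTRIV : S_TRIV) (hLOCU : S_LOCU) (hGIND : S_GIND)
    (hPRG : S_PRG) (hRED : S_RED) (D : AffD X Γ E dev hol)
    (hfree : ∀ (γ : Γ) (x : X), γ • x = x → γ = 1) (hinj : Function.Injective dev)
    (P : Γ → Prop) (hP : Flows hol P) (N : Subgroup Γ) (hNn : N.Normal) (hN : N ≠ ⊥)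
    (huni : ∀ ν ∈ N, IsNilpotent (((hol ν).linear : E →ₗ[ℝ] E) - LinearMap.id))
    (hNP : ∀ ν ∈ N, P ν) (k : ℕ)
    (hk : Module.finrank ℝ E ≤ k + 1) (z : Chain (k + 1) (MulAction.orbitRel.Quotient Γ X))
    (hz : bdry k z = 0) : seminorm1 z = 0 := by
  have hhol := hol_inj D hfree hinj
  have hNt : Nontrivial N := (Subgroup.nontrivial_iff_ne_bot N).2 hN
  obtain ⟨N', hN'⟩ : ∃ N' : Subgroup Γ, N' = N ⊓ Subgroup.centralizer N := ⟨_, rfl⟩
  have hnorm : N'.Normal := by rw [hN']; infer_instance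
  have hle : N' ≤ N := by rw [hN']; exact inf_le_left
  have hne : N' ≠ ⊥ := by
    obtain ⟨w, hw, hwc⟩ := hCENT E N (hol.comp N.subtype)
      (hhol.comp Subtype.val_injective) (fun g => huni g g.2) hNt
    intro h
    apply hw
    have h1 : (w : Γ) ∈ N' := by
      rw [hN']
      refine ⟨w.2, Subgroup.mem_centralizer_iff.2 fun g hg => ?_⟩
      exact congrArg Subtype.val (hwc ⟨g, hg⟩)
    rw [h, Subgroup.mem_bot] at h1
    exact Subtype.ext h1
  have hab : ∀ a ∈ N', ∀ b ∈ N', a * b = b * a := by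
    intro a ha b hb
    have h1 : b ∈ Subgroup.centralizer (N : Set Γ) := by
      rw [hN'] at hb
      exact hb.2
    exact Subgroup.mem_centralizer_iff.1 h1 a (hle ha)
  exact comm_rank hRANK hBZ hLATT hSATU hPROP hTRIV hLOCU hGIND hPRG hRED D hfree hinj P hP N'
    hnorm hne hab (fun ν hν => hNP ν (hle hν)) 0 (rank_zero N') k (Or.inr hk) z hz

end

end Pool.Agent.P8H67.TU
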