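import Pool.Agent.P8H67.TD.Stm

/-!
# Project TU: simplicial volume of closed affine manifolds with a normal unipotent subgroup

Setting: `M = Γ \ Ω` a closed affine manifold, `Ω` open in `E`, `N ≠ 1` a normal subgroup of `Γ` which acts
by unipotent affine maps. THEOREM: the simplicial volume of `M` is zero (and all homology classes of
degree `> n - d` have seminorm zero, for some `d ≥ 1`). Sequel of project TD (translations).

Proof. Replace `N` by its centre (CENT). `N` is a lattice in a vector group `V = ℝ^d` which acts on `E` by a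
polynomial action `Φ` (LOG, FLOW); `Ω` is invariant under `V` (LATT, SATU), the action of `V` on `Ω` is free
and proper (PROP), so `Ω = V × U` (TRIV, by me: HOMEO), `U` is locally `ℝ^(n-d)` (LOCU), `Γ` acts on `V × U` by
maps which are affine on the fibres, and properly on `U` (PRG). As in project TD: bounded cocycles come
from `U` (STR, PRI, FIELD, IM, AVG), and the coinvariant homology of `U` vanishes in degrees `> n - d` (GIND).

Packages: deliver `theorem xxx : S_XXX`. Those of Part A are light adaptations of the packages of the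
same name of project TD.
-/

set_option autoImplicit false

open Set Filter Topology

namespace Pool.Agent.P8H67.TU

open Pool.Agent.N520.SV (Sx Chain face bdry norm1 BCob)
open Pool.Agent.P8H67.TD (RA CC KK GAc gs orb GInv vtx Bd PMean)

/-! ## Part A: fibrewise affine actions on `V × U` -/

/-- the action of `Γ` on `V × U` by maps which are affine on the fibres -/
def fac {V U Γ : Type} [NormedAddCommGroup V] [NormedSpace ℝ V] [Group Γ] [MulAction Γ U]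
    (θ : Γ →* (V ≃ₗ[ℝ] V)) (c : Γ → U → V) (γ : Γ) (p : V × U) : V × U :=
  (θ γ p.1 + c γ p.2, γ • p.2)

/-- the standing hypotheses -/
structure FSys (V U Γ : Type) [NormedAddCommGroup V] [NormedSpace ℝ V] [TopologicalSpace U]
    [Group Γ] [MulAction Γ U] (θ : Γ →* (V ≃ₗ[ℝ] V)) (c : Γ → U → V) : Prop where
  cont : ∀ γ : Γ, Continuous fun u : U => γ • u
  ccont : ∀ γ : Γ, Continuous (c γ)
  mul : ∀ (γ δ : Γ) (u : U), c (γ * δ) u = θ γ (c δ u) + c γ (δ • u)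
  free : ∀ (γ : Γ) (p : V × U), fac θ c γ p = p → γ = 1

/-- STR (70 lines). For each orbit of `Γ` in `V × U` choose a point `d`; by freeness each `y` is
`fac γ d` for exactly one `γ`; put `F y u = c γ (γ⁻¹ • u)`, continuous in `u`, and
`F (fac δ y) (δ • u) = θ δ (F y u) + c δ u`. Put `Str n u x t = ∑ i, t i • F (x i) (u t)` (use `∑ t i = 1`). -/
def S_STR : Prop := ∀ (V U Γ : Type) [NormedAddCommGroup V] [NormedSpace ℝ V]
    [FiniteDimensional ℝ V] [TopologicalSpace U] [Group Γ] [MulAction Γ U]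
    (θ : Γ →* (V ≃ₗ[ℝ] V)) (c : Γ → U → V), FSys V U Γ θ c →
  ∃ Str : ∀ n, C(Sx n, U) → (Fin (n + 1) → V × U) → C(Sx n, V),
    (∀ n (u : C(Sx (n + 1), U)) x (i : Fin (n + 2)),
      (Str (n + 1) u x).comp (face i) = Str n (u.comp (face i)) (fun l => x (i.succAbove l))) ∧
    ∀ n (u u' : C(Sx n, U)) x (γ : Γ), (∀ t, u' t = γ • u t) →
      ∀ t, Str n u' (fun i => fac θ c γ (x i)) t = θ γ (Str n u x t) + c γ (u t)

/-- PRI (120 lines). The prism of the straight homotopy `((1 - r) v + r v', u)` from `(v, u)` to `(v', u)`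
(as in project TD, `Pool.Agent.P8H80.TD.Pri`, with values in `V × U`). -/
def S_PRI : Prop := ∀ (V U : Type) [NormedAddCommGroup V] [NormedSpace ℝ V]
    [FiniteDimensional ℝ V] [TopologicalSpace U],
  ∃ pr : ∀ n, C(Sx n, V) → C(Sx n, V) → C(Sx n, U) → Chain (n + 1) (V × U),
  (∀ n (v v' : C(Sx (n + 1), V)) (u : C(Sx (n + 1), U)), bdry (n + 1) (pr (n + 1) v v' u) =
    Finsupp.single (v'.prodMk u) 1 - Finsupp.single (v.prodMk u) 1 -
      ∑ i : Fin (n + 2), ((-1 : ℝ) ^ (i : ℕ)) •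
        pr n (v.comp (face i)) (v'.comp (face i)) (u.comp (face i))) ∧
  (∀ n, ∃ C : ℝ, ∀ v v' u, norm1 (pr n v v' u) ≤ C) ∧
  ∀ (g : V ≃ₗ[ℝ] V) (b : U → V) (h : U → U) (G : C(V × U, V × U)),
    (∀ p, G p = (g p.1 + b p.2, h p.2)) → ∀ n (v v' w w' : C(Sx n, V)) (u u' : C(Sx n, U)),
    (∀ t, w t = g (v t) + b (u t)) → (∀ t, w' t = g (v' t) + b (u t)) → (∀ t, u' t = h (u t)) →
    pr n w w' u' = Finsupp.mapDomain (fun τ => G.comp τ) (pr n v v' u)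

/-- the means on the fibres -/
def FieldOf (V U Γ : Type) [NormedAddCommGroup V] [NormedSpace ℝ V] [Group Γ] [MulAction Γ U]
    (θ : Γ →* (V ≃ₗ[ℝ] V)) (c : Γ → U → V) (M : U → (V × U → ℝ) → ℝ) : Prop :=
  ∀ u : U,
    (∀ f g : V × U → ℝ, Bd f → Bd g → M u (fun p => f p + g p) = M u f + M u g) ∧
    (∀ (r : ℝ) (f : V × U → ℝ), Bd f → M u (fun p => r * f p) = r * M u f) ∧
    M u (fun _ => 1) = 1 ∧
    (∀ (r : ℝ) (f : V × U → ℝ), Bd f → (∀ v, f (v, u) ≤ r) → M u f ≤ r) ∧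
    ∀ (γ : Γ) (f : V × U → ℝ), Bd f → M (γ • u) f = M u (fun p => f (fac θ c γ p))

/-- FIELD (80 lines). As in project TD (`Pool.Agent.P8H70.TD.Field`): for each orbit of `Γ` in `U` choose
`u0`, `b = (0, u0)`, and for each `u` of the orbit `γ_u` with `γ_u • u0 = u`;
`M u f = m (δ ↦ f (fac (γ_u δ) b))`, `m` the mean of the stabilizer of `u0`. (`fac (γ δ) = fac γ ∘ fac δ`.) -/
def S_FIELD : Prop := ∀ (V U Γ : Type) [NormedAddCommGroup V] [NormedSpace ℝ V]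
    [TopologicalSpace U] [Group Γ] [MulAction Γ U] (θ : Γ →* (V ≃ₗ[ℝ] V)) (c : Γ → U → V),
  FSys V U Γ θ c → (∀ u : U, PMean (MulAction.stabilizer Γ u)) → ∃ M, FieldOf V U Γ θ c M

/-- iterated means on tuples of points over a tuple `u` of points of `U` -/
def ItOf (V U Γ : Type) [NormedAddCommGroup V] [NormedSpace ℝ V] [Group Γ] [MulAction Γ U]
    (θ : Γ →* (V ≃ₗ[ℝ] V)) (c : Γ → U → V)
    (I : ∀ n, (Fin n → U) → ((Fin n → V × U) → ℝ) → ℝ) : Prop :=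
  (∀ n (u : Fin n → U),
    (∀ f g : (Fin n → V × U) → ℝ, Bd f → Bd g →
      I n u (fun x => f x + g x) = I n u f + I n u g) ∧
    (∀ (r : ℝ) (f : (Fin n → V × U) → ℝ), Bd f → I n u (fun x => r * f x) = r * I n u f) ∧
    I n u (fun _ => 1) = 1 ∧
    (∀ (r : ℝ) (f : (Fin n → V × U) → ℝ), Bd f → (∀ x, (∀ i, (x i).2 = u i) → f x ≤ r) →
      I n u f ≤ r) ∧
    ∀ (γ : Γ) (f : (Fin n → V × U) → ℝ), Bd f →
      I n (fun i => γ • u i) f = I n u (fun x => f (fun i => fac θ c γ (x i)))) ∧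
  ∀ l (u : Fin (l + 1) → U) (i : Fin (l + 1)) (f : (Fin l → V × U) → ℝ), Bd f →
    I (l + 1) u (fun x => f (fun a => x (i.succAbove a))) = I l (fun a => u (i.succAbove a)) f

/-- IM (100 lines). As in project TD (`Pool.Agent.P8H70.TD.Im`). -/
def S_IM : Prop := ∀ (V U Γ : Type) [NormedAddCommGroup V] [NormedSpace ℝ V]
    [TopologicalSpace U] [Group Γ] [MulAction Γ U] (θ : Γ →* (V ≃ₗ[ℝ] V)) (c : Γ → U → V),
  (∃ M, FieldOf V U Γ θ c M) → ∃ I, ItOf V U Γ θ c I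

/-- a bounded invariant cocycle of `V × U` is the pull back of an invariant cocycle of `U`, up to the
coboundary of an invariant cochain -/
def S_RED : Prop := ∀ (V U Γ : Type) [NormedAddCommGroup V] [NormedSpace ℝ V]
    [FiniteDimensional ℝ V] [TopologicalSpace U] [Group Γ] [MulAction Γ U]
    (θ : Γ →* (V ≃ₗ[ℝ] V)) (c : Γ → U → V), FSys V U Γ θ c →
  (∀ u : U, PMean (MulAction.stabilizer Γ u)) → ∀ (k : ℕ) (φ : C(Sx (k + 1), V × U) → ℝ) (C : ℝ),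
  (∀ s : C(Sx (k + 1), V × U), |φ s| ≤ C) →
  (∀ (γ : Γ) (s s' : C(Sx (k + 1), V × U)), (∀ t, s' t = fac θ c γ (s t)) → φ s' = φ s) →
  (∀ τ : C(Sx (k + 2), V × U),
    ∑ i : Fin (k + 3), (-1 : ℝ) ^ (i : ℕ) * φ (τ.comp (face i)) = 0) →
  ∃ (β : C(Sx (k + 1), U) → ℝ) (η : C(Sx k, V × U) → ℝ),
    (∀ (γ : Γ) (u u' : C(Sx (k + 1), U)), (∀ t, u' t = γ • u t) → β u' = β u) ∧
    (∀ τ : C(Sx (k + 2), U),
      ∑ i : Fin (k + 3), (-1 : ℝ) ^ (i : ℕ) * β (τ.comp (face i)) = 0) ∧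
    (∀ (γ : Γ) (s s' : C(Sx k, V × U)), (∀ t, s' t = fac θ c γ (s t)) → η s' = η s) ∧
    ∀ (s : C(Sx (k + 1), V × U)) (u : C(Sx (k + 1), U)), (∀ t, u t = (s t).2) →
      φ s = β u + ∑ i : Fin (k + 2), (-1 : ℝ) ^ (i : ℕ) * η (s.comp (face i))

/-- AVG (200 lines). As in project TD (`Pool.Agent.P8H93.TD.Avg`), simpler, without `Ω`:
`β u = I (k+2) (u ∘ vtx) (x ↦ φ ((Str (k+1) u x, u)))`,
`h s x = φ` evaluated at the chain `pr k s_V (Str k s_U x) s_U`, `η' s = I (k+1) (s_U ∘ vtx) (h s)`, `η = -η'`. -/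
def S_AVG : Prop := S_STR → S_PRI → S_FIELD → S_IM → S_RED

/-! ## Part B: groups acting on `U` -/

/-- GIND (120 lines). `Pool.Agent.P8H54.TD.Chart` and `Gind` with a local hypothesis: take the `B` of CHART
inside of the given neighbourhoods. -/
def S_GIND : Prop := TD.S_SUB → TD.S_GMV → TD.S_GLOC → ∀ (Y G : Type) [TopologicalSpace Y]
    [T2Space Y] [LocallyCompactSpace Y] [Group G] [MulAction G Y] [ContinuousConstSMul G Y],
  (∀ K : Set Y, IsCompact K → {g : G | ∃ y ∈ K, g • y ∈ K}.Finite) →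
  (∃ K : Set Y, IsCompact K ∧ ∀ y : Y, ∃ g : G, g • y ∈ K) →
  ∀ m : ℕ, (∀ y : Y, ∃ B : Set Y, IsOpen B ∧ y ∈ B ∧
    ∀ W : Set Y, IsOpen W → W ⊆ B → ∀ j : ℕ, m ≤ j + 1 → RA j W) →
  ∀ j : ℕ, m ≤ j + 1 → GAc G (j + 1) (univ : Set Y)

/-- PRG (120 lines). (1) If `y, γ • y ∈ K`, choose `ν ∈ N` with `‖c γ y + a ν‖ ≤ R`; then `ν γ` maps
the point `(0, y)` of the compact set `closedBall 0 R ×ˢ K` into this set, and `ν γ` acts on `U` like `γ`.
(2) Project a compact set. (3) As (1) with `K = {u}`: the stabilizer is `N` times a finite set. -/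
def S_PRG : Prop := ∀ (V U Γ : Type) [NormedAddCommGroup V] [NormedSpace ℝ V]
    [FiniteDimensional ℝ V] [TopologicalSpace U] [T2Space U] [Group Γ] [MulAction Γ U]
    (θ : Γ →* (V ≃ₗ[ℝ] V)) (c : Γ → U → V) (N : Subgroup Γ) (R : ℝ), FSys V U Γ θ c →
  (∀ K : Set (V × U), IsCompact K → {γ : Γ | ∃ p ∈ K, fac θ c γ p ∈ K}.Finite) →
  (∃ K : Set (V × U), IsCompact K ∧ ∀ p, ∃ γ : Γ, fac θ c γ p ∈ K) →
  (∀ ν ∈ N, ∃ a : V, ∀ p : V × U, fac θ c ν p = (p.1 + a, p.2)) →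
  (∀ w : V, ∃ ν ∈ N, ∃ a : V, (∀ p : V × U, fac θ c ν p = (p.1 + a, p.2)) ∧ ‖w + a‖ ≤ R) →
  (∀ K : Set U, IsCompact K →
    {g : (MulAction.toPermHom Γ U).range | ∃ y ∈ K, (g : Equiv.Perm U) y ∈ K}.Finite) ∧
  (∃ K : Set U, IsCompact K ∧ ∀ y : U, ∃ γ : Γ, γ • y ∈ K) ∧
  ∀ u : U, (N.subgroupOf (MulAction.stabilizer Γ u)).FiniteIndex

/-! ## Part C: the flow of a normal unipotent subgroup -/

/-- CENT (100 lines). A nontrivial group of unipotent linear maps has a nontrivial centre (Kolchin: it is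
conjugate to a group of unitriangular matrices, so it is nilpotent; Kolchin's theorem is in
`Pool.Agent.Y759.TS.Kol`, other forms in `Pool.Agent.Y38.TS.Nil`, `Pool.Agent.N235.TA.Kol`, or use
Mathlib: Burnside / `Module.End` nil algebras). Note that the affine maps of `E` are linear maps of `E × ℝ`. -/
def S_CENT : Prop := ∀ (E G : Type) [NormedAddCommGroup E] [NormedSpace ℝ E]
    [FiniteDimensional ℝ E] [Group G] (hol : G →* (E ≃ᵃ[ℝ] E)), Function.Injective hol →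
  (∀ g : G, IsNilpotent (((hol g).linear : E →ₗ[ℝ] E) - LinearMap.id)) → Nontrivial G →
  ∃ z : G, z ≠ 1 ∧ ∀ g : G, g * z = z * g

/-- LOG (80 lines). The logarithm of a unipotent element: `x z = ∑ (-1)^(k+1) x^k / k`. E.g. with
`l(t) = ∑ (-1)^(k+1) t^k x^k / k` one has `(1 + t x) l'(t) = x`, and the derivative of
`(1 + t x) exp(-l(t))` is zero. -/
def S_LOG : Prop := ∀ (R : Type) [NormedRing R] [NormedAlgebra ℝ R] [CompleteSpace R] (x : R),
  IsNilpotent x → ∃ z ∈ Algebra.adjoin ℝ {x}, NormedSpace.exp (x * z) = 1 + x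

/-- an action of `ℝ^d` on `E` in which `N` is a subgroup -/
structure Flow (E Γ : Type) [NormedAddCommGroup E] [NormedSpace ℝ E] [Group Γ]
    (hol : Γ →* (E ≃ᵃ[ℝ] E)) (N : Subgroup Γ) (d : ℕ) (Φ : (Fin d → ℝ) → E → E)
    (θ : Γ →* ((Fin d → ℝ) ≃ₗ[ℝ] (Fin d → ℝ))) : Prop where
  smooth : ContDiff ℝ 1 (fun x : (Fin d → ℝ) × E => Φ x.1 x.2)
  zero : ∀ p, Φ 0 p = p
  add : ∀ a b p, Φ (a + b) p = Φ a (Φ b p)
  equi : ∀ γ a p, hol γ (Φ a p) = Φ (θ γ a) (hol γ p)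
  spn : Submodule.span ℝ {a | ∃ ν ∈ N, ∀ p, hol ν p = Φ a p} = ⊤
  sub : ∀ ν ∈ N, ∃ a, ∀ p, hol ν p = Φ a p
  faith : ∀ a, (∀ p, Φ a p = p) → a = 0
  line : ∀ a p, Φ a p = p → ∀ t : ℝ, Φ (t • a) p = p
  imm : ∀ a p, fderiv ℝ (fun b => Φ b p) 0 a = 0 → Φ a p = p

/-- FLOW (200 lines). Let `R` be the algebra of the endomorphisms of `F = E × ℝ` and `g ↦ g'` the linear map
of `F` given by an affine map (`g' (p, 1) = (g p, 1)`; as `Pool.Agent.P8H83.hm`, copy it). For `ν ∈ N`,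
`ν' - 1` is nilpotent; by LOG `ν' = exp(l)`, `l = x z`, `x = ν' - 1`, nilpotent, a polynomial in `ν'`; such
an `l` commutes with all maps which commute with `ν'`. If `exp a = exp b` for commuting nilpotent `a`, `b`, then
`a = b` (`exp(a - b) = 1`, and `exp y - 1 = y (1 + nilpotent)`). So `l` is the only nilpotent element
commuting with `ν'` with `exp l = ν'`; all the `l` commute, they form an additive group `L`, invariant under
conjugation by `γ'`. `A` = span of `L`: commuting nilpotent maps of `F` with image in `E × 0`, `ℝ^d ≃ A` a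
basis, `(Φ a p, 1) = exp(a) (p, 1)`, `θ` the conjugation. `Φ` is polynomial: `exp a = ∑_{k < K} a^k / k!`, so
smooth. `line`, `imm`: if `a (p, 1) = 0` then `exp(t a) (p, 1) = (p, 1)`; if `exp(a) q = q` then
`a (1 + nilpotent) q = 0`, so `a q = 0`; the derivative in `imm` is `a (p, 1)`. -/
def S_FLOW : Prop := S_LOG → ∀ (E Γ : Type) [NormedAddCommGroup E] [NormedSpace ℝ E]
    [FiniteDimensional ℝ E] [Group Γ] (hol : Γ →* (E ≃ᵃ[ℝ] E)) (N : Subgroup Γ) [N.Normal],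
  (∀ a ∈ N, ∀ b ∈ N, a * b = b * a) →
  (∀ ν ∈ N, IsNilpotent (((hol ν).linear : E →ₗ[ℝ] E) - LinearMap.id)) →
  ∃ (d : ℕ) (Φ : (Fin d → ℝ) → E → E) (θ : Γ →* ((Fin d → ℝ) ≃ₗ[ℝ] (Fin d → ℝ))),
    Flow E Γ hol N d Φ θ

/-- the domain of a closed affine manifold -/
structure Dom (E Γ : Type) [NormedAddCommGroup E] [NormedSpace ℝ E] [Group Γ]
    (hol : Γ →* (E ≃ᵃ[ℝ] E)) (Ω : Set E) : Prop where
  opn : IsOpen Ω
  ne : Ω.Nonempty
  inv : ∀ γ, ∀ p ∈ Ω, hol γ p ∈ Ω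
  free : ∀ γ, ∀ p ∈ Ω, hol γ p = p → γ = 1
  pd : ∀ K ⊆ Ω, IsCompact K → {γ : Γ | ∃ p ∈ K, hol γ p ∈ K}.Finite
  cc : ∃ K ⊆ Ω, IsCompact K ∧ ∀ q ∈ Ω, ∃ γ, ∃ p ∈ K, hol γ p = q

section
variable (E Γ : Type) [NormedAddCommGroup E] [NormedSpace ℝ E] [FiniteDimensional ℝ E] [Group Γ]
  (hol : Γ →* (E ≃ᵃ[ℝ] E)) (N : Subgroup Γ) (Ω : Set E) (d : ℕ) (Φ : (Fin d → ℝ) → E → E)

/-- the lattice of `N` in `ℝ^d` is discrete -/
def Latt : Prop := ∃ r : ℝ, 0 < r ∧ ∀ a : Fin d → ℝ, (∃ ν ∈ N, ∀ p, hol ν p = Φ a p) →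
  ‖a‖ < r → a = 0

/-- the domain is invariant under the flow -/
def Satu : Prop := ∀ a, ∀ p ∈ Ω, Φ a p ∈ Ω

/-- the action of `ℝ^d` on the domain is proper and free -/
def Prp : Prop := (∀ K ⊆ Ω, IsCompact K → ∃ R : ℝ, ∀ a, ∀ p ∈ K, Φ a p ∈ K → ‖a‖ ≤ R) ∧
  ∀ a, ∀ p ∈ Ω, Φ a p = p → a = 0

end

/-- LATT (80 lines). Let `p ∈ Ω` and `K ⊆ Ω` a closed ball at `p`. For small `a` one has `Φ a p ∈ K`, so the
`ν ∈ N` with `hol ν = Φ a`, `a` small, are in the finite set of `pd K`; `a` is determined by `ν` (`faith`). -/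
def S_LATT : Prop := ∀ (E Γ : Type) [NormedAddCommGroup E] [NormedSpace ℝ E]
    [FiniteDimensional ℝ E] [Group Γ] (hol : Γ →* (E ≃ᵃ[ℝ] E)) (N : Subgroup Γ) [N.Normal]
    (Ω : Set E) (d : ℕ) (Φ : (Fin d → ℝ) → E → E)
    (θ : Γ →* ((Fin d → ℝ) ≃ₗ[ℝ] (Fin d → ℝ))), Dom E Γ hol Ω → Flow E Γ hol N d Φ θ →
  Latt E Γ hol N d Φ

/-- SATU (200 lines). Adapt `Pool.Agent.P8H67.TD.g_sat` (file `P8H67/TD/Gen.lean`; there `Φ a p = p + a`); the
lemmas `pack` (`P8H83/Trans.lean`), `one_le_det`, `exists_basis_of_span` (`P8H83/Unf.lean`) are pure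
Mathlib, copy them. Let `Λ` be the lattice (`Latt`, `spn`); `θ γ Λ = Λ` (normality), so `|det θ γ| = 1`.
Let `p ∈ Ω`, `v ∈ ℝ^d`, `s0` the first exit time, `y = Φ (s0 v) p ∉ Ω`, `a_j ↑ s0`,
`x_j = Φ (a_j v) p ∈ Ω`, `x_j = γ_j c_j`, `c_j ∈ C0` compact; `r` small such that
`C1 = {Φ u c : ‖u‖ ≤ r, c ∈ C0} ⊆ Ω`. `S_j = a_j v + θ γ_j (ball 0 r)` have constant volume and
`γ_j Φ_u c_j = Φ_(a_j v + θ γ_j u) p`. Apply `pack`. Finiteness: fix `i` and let there be infinitely many `j`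
with `t + (a_i v + θ γ_i u) = a_j v + θ γ_j u'`, `t = t_j ∈ Λ` given by `τ_j ∈ N`: then
`f = γ_i⁻¹ τ_j⁻¹ γ_j` maps `Φ_u' c_j` to `Φ_u c_i`, both in `C1`, so `f` is in a finite set; pass to a
subsequence with `f` constant. `w_j := γ_i f c_j = Φ_(-t_j) x_j` is in the compact `K0 = γ_i f C0 ⊆ Ω`. Choose
`ε` with `K1 = {Φ_(s v) w : |s| ≤ ε, w ∈ K0} ⊆ Ω` and `j0` with `s0 - a_j0 < ε`; for `j ≥ j0`
`Φ_(-t_j) x_j0 = Φ_((a_j0 - a_j) v) w_j ∈ K1`, so `τ_j⁻¹` maps `x_j0` into `K1`: finitely many `τ_j`; pass to a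
subsequence with `τ_j = τ` constant: `x_j = τ γ_i f c_j` stays in a compact subset of `Ω`, so `y ∈ Ω`. -/
def S_SATU : Prop := ∀ (E Γ : Type) [NormedAddCommGroup E] [NormedSpace ℝ E]
    [FiniteDimensional ℝ E] [Group Γ] (hol : Γ →* (E ≃ᵃ[ℝ] E)) (N : Subgroup Γ) [N.Normal]
    (Ω : Set E) (d : ℕ) (Φ : (Fin d → ℝ) → E → E)
    (θ : Γ →* ((Fin d → ℝ) ≃ₗ[ℝ] (Fin d → ℝ))), Dom E Γ hol Ω → Flow E Γ hol N d Φ θ →
  Latt E Γ hol N d Φ → Satu E Ω d Φ

/-- PROP (120 lines). `Λ` is cocompact in `ℝ^d` (`spn`; as `Pool.Agent.P8H83.cocpt_T`): there is `R0` such that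
for all `a` there is `t ∈ Λ` with `‖a + t‖ ≤ R0`. If `p, Φ a p ∈ K` then `Φ_t (Φ_a p)` is in the compact set
`K' = {Φ_b q : ‖b‖ ≤ R0, q ∈ K} ⊆ Ω` and `Φ_t = hol ν`: finitely many `ν`, hence finitely many `t`. Freeness:
`line` and `K = {p}`. -/
def S_PROP : Prop := ∀ (E Γ : Type) [NormedAddCommGroup E] [NormedSpace ℝ E]
    [FiniteDimensional ℝ E] [Group Γ] (hol : Γ →* (E ≃ᵃ[ℝ] E)) (N : Subgroup Γ) [N.Normal]
    (Ω : Set E) (d : ℕ) (Φ : (Fin d → ℝ) → E → E)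
    (θ : Γ →* ((Fin d → ℝ) ≃ₗ[ℝ] (Fin d → ℝ))), Dom E Γ hol Ω → Flow E Γ hol N d Φ θ →
  Latt E Γ hol N d Φ → Satu E Ω d Φ →
  Prp E Ω d Φ ∧ ∃ R : ℝ, ∀ w : Fin d → ℝ, ∃ ν ∈ N, ∃ a : Fin d → ℝ,
    (∀ p, hol ν p = Φ a p) ∧ ‖w + a‖ ≤ R

/-- TRIV (200 lines). Let `K_i` be an exhaustion of `Ω` by compact sets, `K_i ⊆ interior K_(i+1)`, `A K` the
union of the orbits through `K`: closed in `Ω` for compact `K` and open for open `K`. Let `ψ_i ≥ 0` be
continuous with compact support in `Ω \ A K_(i-2)` and positive on `K_i \ A (interior K_(i-1))`; `ψ = ∑ ψ_i`.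
On `A K_m` only the `ψ_i` with `i < m + 2` are not `0`. So for `K ⊆ Ω` compact there is `R` with
`ψ (Φ a p) = 0` for `p ∈ K`, `‖a‖ > R`, `ψ` is continuous on `Ω` and not `0` on any orbit. Put
`F p = - (∫ ψ (Φ a p) • a da) / ∫ ψ (Φ a p) da`. (Or: partitions of unity on the orbit space and local
slices, or any other proof.) -/
def S_TRIV : Prop := ∀ (E : Type) [NormedAddCommGroup E] [NormedSpace ℝ E]
    [FiniteDimensional ℝ E] (Ω : Set E) (d : ℕ) (Φ : (Fin d → ℝ) → E → E), IsOpen Ω →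
  Continuous (fun x : (Fin d → ℝ) × E => Φ x.1 x.2) → (∀ p, Φ 0 p = p) →
  (∀ a b p, Φ (a + b) p = Φ a (Φ b p)) → Satu E Ω d Φ → Prp E Ω d Φ →
  ∃ F : E → (Fin d → ℝ), ContinuousOn F Ω ∧ ∀ a, ∀ p ∈ Ω, F (Φ a p) = F p + a

/-- LOCU (200 lines). Let `p ∈ U`, `L` the derivative of `a ↦ Φ a p` at `0`, injective (`imm` and freeness),
`S` a complement of `range L` in `E`, `dim S = n - d`. `(a, s) ↦ Φ a (p + s)` is `C^1` with invertible
derivative at `(0, 0)`: local homeomorphism (inverse function theorem). For small `s ∈ S` let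
`κ s = Φ (- F (p + s)) (p + s) ∈ U`. It is injective for small `s`: if `κ s = κ s'` then
`p + s' = Φ a (p + s)`, `a = F (p + s') - F (p + s)` small; and open: `κ S2 = U ∩ A (p + S2)`. So `κ` is a
homeomorphism of a small open subset of `S` with an open subset `B` of `U`. Open `W ⊆ B` are homeomorphic to
open subsets of `S`: `TD.S_QH` (proved: `Pool.Agent.P8H55.TD.qh`; the hypothesis here is its conclusion), or,
if `n = d`, `W` has at most one point. -/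
def S_LOCU : Prop :=
  (∀ (Q : Type) [NormedAddCommGroup Q] [NormedSpace ℝ Q] [FiniteDimensional ℝ Q] (U : Set Q),
    IsOpen U → 1 ≤ Module.finrank ℝ Q → ∀ W : Set U, IsOpen W →
    ∀ j : ℕ, Module.finrank ℝ Q ≤ j + 1 → RA j W) →
  ∀ (E : Type) [NormedAddCommGroup E] [NormedSpace ℝ E]
    [FiniteDimensional ℝ E] (Ω : Set E) (d : ℕ) (Φ : (Fin d → ℝ) → E → E)
    (F : E → (Fin d → ℝ)), IsOpen Ω →
  ContDiff ℝ 1 (fun x : (Fin d → ℝ) × E => Φ x.1 x.2) → (∀ p, Φ 0 p = p) →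
  (∀ a b p, Φ (a + b) p = Φ a (Φ b p)) →
  (∀ a p, fderiv ℝ (fun b => Φ b p) 0 a = 0 → Φ a p = p) → Satu E Ω d Φ → Prp E Ω d Φ →
  ContinuousOn F Ω → (∀ a, ∀ p ∈ Ω, F (Φ a p) = F p + a) →
  ∀ u : {p : E // p ∈ Ω ∧ F p = 0}, ∃ B : Set {p : E // p ∈ Ω ∧ F p = 0}, IsOpen B ∧ u ∈ B ∧
    ∀ W : Set {p : E // p ∈ Ω ∧ F p = 0}, IsOpen W → W ⊆ B →
      ∀ j : ℕ, Module.finrank ℝ E ≤ d + (j + 1) → RA j W

end Pool.Agent.P8H67.TU
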